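import Mathlib

/-!
# Squad BLP (MP_2ae58c_pr): Busemann geodesics in Brownian last-passage percolation

THEOREM: almost surely, for every direction `θ > 0` every `θ`-directed semi-infinite geodesic is a
Busemann geodesic.  Definitions.

An environment is a family `b r`, `r ∈ ℤ`, of functions on the real line (continuous).  A point is a
pair `(m, s)`, level `m`, time `s`.
-/

namespace Pool.Agent.BLP

open MeasureTheory ProbabilityTheory Filter Topology Finset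
open scoped ENNReal

noncomputable section

/-! ### Last-passage percolation -/

/-- environments -/
abbrev Env : Type := ℤ → ℝ → ℝ

/-- all functions are continuous -/
def Cts (b : Env) : Prop := ∀ r, Continuous (b r)

/-- the energy of the part of the path `τ` from `(m, τ (m - 1))` to `(n, τ n)`: the path runs along
level `r` from `τ (r - 1)` to `τ r` -/
def En (b : Env) (τ : ℤ → ℝ) (m n : ℤ) : ℝ := ∑ r ∈ Finset.Icc m n, (b r (τ r) - b r (τ (r - 1)))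

/-- the last-passage value from `(m, s)` to `(n, t)` -/
def L (b : Env) (m : ℤ) (s : ℝ) (n : ℤ) (t : ℝ) : ℝ :=
  sSup {E | ∃ τ : ℤ → ℝ, τ (m - 1) = s ∧ τ n = t ∧ (∀ r, m ≤ r → r ≤ n → τ (r - 1) ≤ τ r) ∧
    E = En b τ m n}

/-- semi-infinite geodesic from `(m, τ (m - 1))` -/
def Geo (b : Env) (m : ℤ) (τ : ℤ → ℝ) : Prop :=
  (∀ r, m ≤ r → τ (r - 1) ≤ τ r) ∧ ∀ k n, m ≤ k → k ≤ n → En b τ k n = L b k (τ (k - 1)) n (τ n)

/-- the path `τ` has the direction `θ` -/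
def Dir (θ : ℝ) (τ : ℤ → ℝ) : Prop := Tendsto (fun r : ℕ => τ r / r) atTop (𝓝 θ)

/-- `h m t` is the limit of `β q (m, 0) (m, t)` as `q` increases to `θ` -/
def LimL (β : ℚ → ℤ × ℝ → ℤ × ℝ → ℝ) (θ : ℝ) (h : ℤ → ℝ → ℝ) : Prop := ∀ m t,
  Tendsto (fun q : ℚ => β q (m, 0) (m, t)) (comap (fun q : ℚ => (q : ℝ)) (𝓝[<] θ)) (𝓝 (h m t))

/-- `h m t` is the limit of `β q (m, 0) (m, t)` as `q` decreases to `θ` -/
def LimR (β : ℚ → ℤ × ℝ → ℤ × ℝ → ℝ) (θ : ℝ) (h : ℤ → ℝ → ℝ) : Prop := ∀ m t,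
  Tendsto (fun q : ℚ => β q (m, 0) (m, t)) (comap (fun q : ℚ => (q : ℝ)) (𝓝[>] θ)) (𝓝 (h m t))

/-- Busemann geodesics from `(m, τ (m - 1))` for the function `h` -/
def BGeo (b : Env) (h : ℤ → ℝ → ℝ) (m : ℤ) (τ : ℤ → ℝ) : Prop :=
  ∀ r, m ≤ r → τ (r - 1) ≤ τ r ∧ ∀ s, τ (r - 1) ≤ s →
    b r s - h (r + 1) s ≤ b r (τ r) - h (r + 1) (τ r)

/-- the conclusion for one environment -/
def Good (b : Env) (β : ℚ → ℤ × ℝ → ℤ × ℝ → ℝ) : Prop := ∀ θ : ℝ, 0 < θ → ∀ hl hr : ℤ → ℝ → ℝ,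
  LimL β θ hl → LimR β θ hr → ∀ (m : ℤ) (τ : ℤ → ℝ), Geo b m τ → Dir θ τ →
    BGeo b hl m τ ∨ BGeo b hr m τ

/-- independent two-sided standard Brownian motions `B r`, `r ∈ ℤ` -/
structure IsBM {Ω : Type} [MeasurableSpace Ω] (P : Measure Ω) (B : Ω → Env) : Prop where
  gauss : IsGaussianProcess (fun (i : ℤ × ℝ) (ω : Ω) => B ω i.1 i.2) P
  mean : ∀ r t, ∫ ω, B ω r t ∂P = 0
  cov : ∀ r s r' t, ∫ ω, B ω r s * B ω r' t ∂P = if r = r' then (|s| + |t| - |s - t|) / 2 else 0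
  cont : ∀ᵐ ω ∂P, Cts (B ω)

/-- the convergence in probability of the Busemann functions in rational directions -/
def InM {Ω : Type} [MeasurableSpace Ω] (P : Measure Ω) (B : Ω → Env)
    (β : ℚ → ℤ × ℝ → ℤ × ℝ → Ω → ℝ) : Prop := ∀ q : ℚ, 0 < q → ∀ x y : ℤ × ℝ,
  TendstoInMeasure P (fun (n : ℕ) ω => L (B ω) x.1 x.2 n (n * q) - L (B ω) y.1 y.2 n (n * q))
    atTop (β q x y)

/-- the Busemann functions are continuous in the times -/
def Con (β : ℚ → ℤ × ℝ → ℤ × ℝ → ℝ) : Prop := ∀ q : ℚ, 0 < q → ∀ m n : ℤ,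
  Continuous fun p : ℝ × ℝ => β q (m, p.1) (n, p.2)

/-- MAIN THEOREM: the Busemann functions exist (as continuous versions of limits in probability),
and almost surely, for all `θ > 0`, the one-sided limits exist and all `θ`-directed semi-infinite
geodesics are Busemann geodesics. -/
def MainStmt : Prop := ∀ (Ω : Type) [MeasurableSpace Ω] (P : Measure Ω) (B : Ω → Env),
  IsBM P B → ∃ β : ℚ → ℤ × ℝ → ℤ × ℝ → Ω → ℝ, InM P B β ∧
    ∀ᵐ ω ∂P, Con (fun q x y => β q x y ω) ∧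
      (∀ θ : ℝ, 0 < θ → ∃ hl hr : ℤ → ℝ → ℝ,
        LimL (fun q x y => β q x y ω) θ hl ∧ LimR (fun q x y => β q x y ω) θ hr) ∧
      Good (B ω) (fun q x y => β q x y ω)

/-! ### The probability space used in the proofs -/

/-- the increments of `b`, translated by `a` -/
def shT (a : ℝ) (b : Env) : Env := fun r t => b r (t + a) - b r a

/-- translation of the levels -/
def shL (k : ℤ) (b : Env) : Env := fun r t => b (r + k) t

/-- Brownian scaling -/
def scl (l : ℝ) (b : Env) : Env := fun r t => b r (l * t) / Real.sqrt l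

/-- A probability space `X` with a random environment `B`, such that all `B x` are continuous and
`0` at time `0`, the law is that of independent two-sided Brownian motions, and translations (by
rational times), translations of the levels and scalings (with a rational factor) are realised by
measure preserving maps. -/
structure Sp {X : Type} [MeasurableSpace X] (μ : Measure X) (B : X → Env) : Prop where
  prob : IsProbabilityMeasure μ
  cts : ∀ x, Cts (B x)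
  zero : ∀ x r, B x r 0 = 0
  mea : ∀ r t, Measurable fun x => B x r t
  tr : ∀ a : ℚ, ∃ T : X → X, MeasurePreserving T μ μ ∧ ∀ᵐ x ∂μ, B (T x) = shT a (B x)
  lv : ∀ k : ℤ, ∃ T : X → X, MeasurePreserving T μ μ ∧ ∀ᵐ x ∂μ, B (T x) = shL k (B x)
  sc : ∀ l : ℚ, 0 < l → ∃ T : X → X, MeasurePreserving T μ μ ∧ ∀ᵐ x ∂μ, B (T x) = scl l (B x)
  law : ∀ r (s t : ℝ), s ≤ t → μ.map (fun x => B x r t - B x r s) = gaussianReal 0 (t - s).toNNReal
  ind : iIndepFun (fun (r : ℤ) (x : X) => fun q : ℚ => B x r q) μ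
  inc : ∀ r (s : ℝ), IndepFun (fun x => fun t : {t : ℝ // t ≤ s} => B x r t - B x r s)
    (fun x => fun t : {t : ℝ // s ≤ t} => B x r t - B x r s) μ

/-- the expectation of the last-passage value over `n` levels and the time interval `[0, 1]` -/
def aa {X : Type} [MeasurableSpace X] (μ : Measure X) (B : X → Env) (n : ℕ) : ℝ :=
  ∫ x, L (B x) 0 0 ((n : ℤ) - 1) 1 ∂μ

/-- law of large numbers in probability, with the constant `c` -/
def LLNc {X : Type} [MeasurableSpace X] (μ : Measure X) (B : X → Env) (c : ℝ) : Prop :=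
  0 < c ∧ Tendsto (fun n : ℕ => aa μ B n / Real.sqrt n) atTop (𝓝 c) ∧
  (∀ n : ℕ, 1 ≤ n → aa μ B n ≤ c * Real.sqrt n) ∧
  ∀ A η : ℝ, 0 < A → 0 < η → Tendsto (fun n : ℕ => μ {x | ∃ e : ℝ, 0 ≤ e ∧ e ≤ A * n ∧
    η * n < |L (B x) 0 0 n e - c * Real.sqrt (n * e)|}) atTop (𝓝 0)

/-! ### Properties of the Busemann functions of one environment -/

/-- monotonicity in the direction, lower bound by the increments of `b`, additivity, vertical
increments -/
def Mon (b : Env) (β : ℚ → ℤ × ℝ → ℤ × ℝ → ℝ) : Prop :=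
  (∀ q : ℚ, 0 < q → ∀ x y z, β q x z = β q x y + β q y z) ∧
  (∀ q : ℚ, 0 < q → ∀ (m : ℤ) (s t : ℝ), s ≤ t → b m t - b m s ≤ β q (m, s) (m, t)) ∧
  (∀ q q' : ℚ, 0 < q → q < q' → ∀ (m : ℤ) (s t : ℝ), s ≤ t →
    β q' (m, s) (m, t) ≤ β q (m, s) (m, t)) ∧
  (∀ q q' : ℚ, 0 < q → q < q' → ∀ (m : ℤ) (s : ℝ),
    β q (m, s) (m + 1, s) ≤ β q' (m, s) (m + 1, s))

/-! ### Valleys -/

/-- the cumulative mass of the end interval `[e, e']` (at level `n`) on level `k` -/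
def Dm (b : Env) (n : ℤ) (e e' : ℝ) (k : ℤ) (s : ℝ) : ℝ := L b k s n e' - L b k s n e

/-- `D^x := L((m, t₀), (n, x)) - L((m', t₁), (n, x))` -/
def Dx (b : Env) (m : ℤ) (t₀ : ℝ) (m' : ℤ) (t₁ : ℝ) (n : ℤ) (x : ℝ) : ℝ :=
  L b m t₀ n x - L b m' t₁ n x

/-- VALLEY of depth `d`: points `(0, t₀)` and `(q, t₁)`, `t₀, t₁ ∈ [0, p]`, and ends
`x₁ ≤ x₂ ≤ x₃` at level `n` in the cone `[α n, α' n]` such that `D` at the middle end is smaller by
`d` than `D` at the two outer ends -/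
def Val (α α' p d : ℝ) (q n : ℕ) (b : Env) : Prop :=
  ∃ t₀ t₁ x₁ x₂ x₃ : ℝ, 0 ≤ t₀ ∧ t₀ ≤ p ∧ 0 ≤ t₁ ∧ t₁ ≤ p ∧ α * n ≤ x₁ ∧ x₁ ≤ x₂ ∧ x₂ ≤ x₃ ∧
    x₃ ≤ α' * n ∧ Dx b 0 t₀ q t₁ n x₂ + d < Dx b 0 t₀ q t₁ n x₁ ∧
    Dx b 0 t₀ q t₁ n x₂ + d < Dx b 0 t₀ q t₁ n x₃

/-- on the levels `m + 1, ..., m + q` and the time window `[k, k + p]` the increments with the end
`(n, n ρ)` are `d`-close to the increments of the Busemann function of direction `ρ` -/
def Clo (b : Env) (β : ℚ → ℤ × ℝ → ℤ × ℝ → ℝ) (m k : ℤ) (p q : ℕ) (ρ d : ℚ) (n : ℕ) : Prop :=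
  ∀ j : ℤ, m < j → j ≤ m + q → ∀ s t : ℝ, k ≤ s → s ≤ k + p → k ≤ t → t ≤ k + p →
    |L b j s n (n * ρ) - L b j t n (n * ρ) - β ρ (j, s) (j, t)| ≤ d

/-- NO VALLEYS (in the limit): for all parameters (level `m`, window `[k, k + p]`, `q` levels, range
of directions `[1 / A, A]`, depth `d`) there are arbitrarily fine grids `i / G` of directions such
that for every `i` there are infinitely many `n` without valley of depth `d` between `i / G` and
`(i + 4) / G`, and with `d`-closeness to the Busemann functions of the directions `(i + 1) / G` and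
`(i + 3) / G` -/
def NoV (b : Env) (β : ℚ → ℤ × ℝ → ℤ × ℝ → ℝ) : Prop :=
  ∀ (m k : ℤ) (p q A G₀ : ℕ) (d : ℚ), 1 ≤ p → 1 ≤ q → 1 ≤ A → 0 < d →
    ∃ G : ℕ, G₀ ≤ G ∧ ∀ i : ℕ, G ≤ A * i → i + 4 ≤ A * G → ∃ᶠ n : ℕ in atTop,
      ¬ Val ((i : ℝ) / G) (((i : ℝ) + 4) / G) p d q ((n : ℤ) - m).toNat (shT k (shL m b)) ∧
      Clo b β m k p q (((i : ℚ) + 1) / G) d n ∧ Clo b β m k p q (((i : ℚ) + 3) / G) d n

end

end Pool.Agent.BLP
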