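import Pool.Agent.BLP.Defs

/-!
# Squad BLP, block A: deterministic last-passage percolation

Complete proofs in the docstrings.  `Pa m s n t τ`: `τ` is an up-right path from `(m, s)` to `(n, t)`; it
runs along level `r` from `τ (r - 1)` to `τ r`, `m ≤ r ≤ n`.  The energy is `En b τ m n`, `L b m s n t` the maximal
energy.  All rows are independent, the earlier statements of the block are hypotheses.
-/

namespace Pool.Agent.BLP

open MeasureTheory ProbabilityTheory Filter Topology Finset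
open scoped ENNReal

noncomputable section

/-- `τ` is a path from `(m, s)` to `(n, t)`. -/
def Pa (m : ℤ) (s : ℝ) (n : ℤ) (t : ℝ) (τ : ℤ → ℝ) : Prop :=
  τ (m - 1) = s ∧ τ n = t ∧ ∀ r, m ≤ r → r ≤ n → τ (r - 1) ≤ τ r

/-! ## 1. Basics -/

/-- ENA: additivity of the energy, and dependence on the values of `τ` on `[m - 1, n]` only.

Proof.  `Icc m n` is the disjoint union of `Icc m k` and `Icc (k + 1) n`. -/
def EnaStmt : Prop := ∀ (b : Env) (τ : ℤ → ℝ) (m n : ℤ),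
  (∀ k, m ≤ k + 1 → k ≤ n → En b τ m n = En b τ m k + En b τ (k + 1) n) ∧
  (En b τ m m = b m (τ m) - b m (τ (m - 1))) ∧
  ∀ σ : ℤ → ℝ, (∀ r, m - 1 ≤ r → r ≤ n → σ r = τ r) → En b σ m n = En b τ m n

/-- PAB: a path is monotone.

Proof.  Induction on `r' - r` (`Int.le_induction`). -/
def PabStmt : Prop := ∀ (m n : ℤ) (s t : ℝ) (τ : ℤ → ℝ), Pa m s n t τ → m ≤ n →
  (∀ r r', m - 1 ≤ r → r ≤ r' → r' ≤ n → τ r ≤ τ r') ∧
  (∀ r, m - 1 ≤ r → r ≤ n → s ≤ τ r ∧ τ r ≤ t) ∧ s ≤ t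

/-- BDD: the set of the energies is not empty and bounded, so `L` is its least upper bound.

Proof.  A path: `τ r = s` for `r < n`, `τ r = t` for `r ≥ n`.  Upper bound: by PAB all `τ r` are in `[s, t]`, `b r` is bounded on
the compact interval `[s, t]`, there are finitely many levels. -/
def BddStmt : Prop := ∀ b : Env, Cts b → ∀ (m n : ℤ) (s t : ℝ), m ≤ n → s ≤ t →
  (∃ τ, Pa m s n t τ) ∧ (∀ τ, Pa m s n t τ → En b τ m n ≤ L b m s n t) ∧
  ∀ C, (∀ τ, Pa m s n t τ → En b τ m n ≤ C) → L b m s n t ≤ C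

/-- ONE: one level, and one time.

Proof.  (1) All paths from `(m, s)` to `(m, t)` have the energy `b m t - b m s` (ENA (2)); the set is a singleton (the
path `τ r = s` for `r < m`, `τ r = t` for `r ≥ m`).  (2) `s = t`: all `τ r = s` (PAB), the energy is `0`. -/
def OneStmt : Prop := ∀ b : Env, (∀ (m : ℤ) (s t : ℝ), s ≤ t → L b m s m t = b m t - b m s) ∧
  ∀ (m n : ℤ) (s : ℝ), m ≤ n → L b m s n s = 0

/-- EXI: existence of optimal paths.

Proof.  Let `K` be the set of the `τ : ℤ → ℝ` with `Pa m s n t τ` and `τ r ∈ [s, t]` for all `r ∈ ℤ`: closed in the compact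
product of the intervals (`isCompact_univ_pi`), not empty (BDD), and `τ ↦ En b τ m n` is continuous (a finite sum of
continuous functions).  So there is a maximum on `K`.  Every path can be changed outside of `[m - 1, n]` (value
`s` there) to an element of `K` with the same energy (ENA (3), PAB).  BDD. -/
def ExiStmt : Prop := ∀ b : Env, Cts b → ∀ (m n : ℤ) (s t : ℝ), m ≤ n → s ≤ t →
  ∃ τ, Pa m s n t τ ∧ En b τ m n = L b m s n t

/-! ## 2. Superadditivity and splitting -/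

/-- SPK: superadditivity at a point `(k, u)`.

Proof.  Optimal paths `τ` from `(m, s)` to `(k, u)` and `σ` from `(k, u)` to `(n, t)` (EXI); `ρ r = τ r` for `r < k`, `ρ r = σ r` for
`r ≥ k`.  It is a path: `ρ (k - 1) = τ (k - 1) ≤ τ k = u = σ (k - 1) ≤ σ k` (the other levels are clear).  The energy: on level `k` it is
`b k (σ k) - b k (τ (k - 1)) = (b k (σ k) - b k u) + (b k u - b k (τ (k - 1)))`.  ENA, BDD. -/
def SpkStmt : Prop := ∀ b : Env, Cts b → ∀ (m k n : ℤ) (s u t : ℝ), m ≤ k → k ≤ n → s ≤ u → u ≤ t →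
  L b m s k u + L b k u n t ≤ L b m s n t

/-- PNT: equality at the points of an optimal path.

Proof.  `≤` is SPK.  `≥`: `L b m s n t = En b τ m n` is the sum of the energies of the path `τ` up to `(k, u)` (replace `τ r`, `r ≥ k`, by
`u`) and from `(k, u)` on (replace `τ r`, `r ≤ k - 1`, by `u`); BDD for both. -/
def PntStmt : Prop := ∀ b : Env, Cts b → ∀ (m k n : ℤ) (s u t : ℝ) (τ : ℤ → ℝ), m ≤ k → k ≤ n →
  Pa m s n t τ → En b τ m n = L b m s n t → τ (k - 1) ≤ u → u ≤ τ k →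
  L b m s n t = L b m s k u + L b k u n t

/-- SPL: splitting between the levels `k` and `k + 1`.

Proof.  (1) Glue optimal paths `τ` (levels `m, .., k`, end `u`) and `σ` (levels `k + 1, .., n`, start `u`): `ρ r = τ r` for `r ≤ k`, `σ r` for
`r > k`; ENA, BDD.  (2) `τ` optimal (EXI), `u = τ k`: `En b τ m n = En b τ m k + En b τ (k + 1) n ≤ L b m s k u + L b (k + 1) u n t`; with (1) equality.
-/
def SplStmt : Prop := ∀ b : Env, Cts b → ∀ (m k n : ℤ) (s t : ℝ), m ≤ k → k < n → s ≤ t →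
  (∀ u, s ≤ u → u ≤ t → L b m s k u + L b (k + 1) u n t ≤ L b m s n t) ∧
  ∃ u, s ≤ u ∧ u ≤ t ∧ L b m s n t = L b m s k u + L b (k + 1) u n t

/-- SUB: parts of optimal paths are optimal.

Proof.  `En b τ m n = En b τ m (k - 1) + En b τ k l + En b τ (l + 1) n` (ENA, without the first term if `k = m` and the last one if
`l = n`), every term is at most the corresponding `L` (BDD), and the sum of the `L` is at most `L b m s n t` (SPL (1)).  So all
are equal. -/
def SubStmt : Prop := ∀ b : Env, Cts b → ∀ (m n : ℤ) (s t : ℝ) (τ : ℤ → ℝ), m ≤ n →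
  Pa m s n t τ → En b τ m n = L b m s n t → ∀ k l, m ≤ k → k ≤ l → l ≤ n →
  En b τ k l = L b k (τ (k - 1)) l (τ l)

/-- BEL: dynamic programming at the start and at the end.

Proof.  SPL with `k = m` and with `k = n - 1`, ONE (1). -/
def BelStmt : Prop := ∀ b : Env, Cts b → ∀ (m n : ℤ) (s t : ℝ), m < n → s ≤ t →
  (∀ u, s ≤ u → u ≤ t → b m u - b m s + L b (m + 1) u n t ≤ L b m s n t) ∧
  (∃ u, s ≤ u ∧ u ≤ t ∧ L b m s n t = b m u - b m s + L b (m + 1) u n t) ∧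
  (∀ u, s ≤ u → u ≤ t → L b m s (n - 1) u + (b n t - b n u) ≤ L b m s n t) ∧
  ∃ u, s ≤ u ∧ u ≤ t ∧ L b m s n t = L b m s (n - 1) u + (b n t - b n u)

/-! ## 3. Elementary inequalities -/

/-- LEV: fewer levels.

Proof.  SPK with the point `(k, s)` or `(k, t)`, ONE (2). -/
def LevStmt : Prop := ∀ b : Env, Cts b → ∀ (m k n : ℤ) (s t : ℝ), m ≤ k → k ≤ n → s ≤ t →
  L b k s n t ≤ L b m s n t ∧ L b m s k t ≤ L b m s n t

/-- INC: increments.

Proof.  (1) SPK with the point `(m, s')`, (2) with the point `(n, t)`, ONE (1).  (3) LEV twice and ONE (1). -/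
def IncStmt : Prop := ∀ b : Env, Cts b → ∀ (m n : ℤ), m ≤ n →
  (∀ s s' t, s ≤ s' → s' ≤ t → b m s' - b m s ≤ L b m s n t - L b m s' n t) ∧
  (∀ s t t', s ≤ t → t ≤ t' → b n t' - b n t ≤ L b m s n t' - L b m s n t) ∧
  ∀ k s t, m ≤ k → k ≤ n → s ≤ t → b k t - b k s ≤ L b m s n t

/-- MOD: dependence on the start and on the end.

Proof.  (1) `≥ -`: INC (1) and `|b m s' - b m s| ≤ ω` (`ω ≥ 0`).  `≤`: for a path `τ` from `(m, s)` to `(n, t)` let `τ' r = max (τ r) s'`, a path from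
`(m, s')` to `(n, t)`.  On level `r` the energy of `τ` is at most the one of `τ'` plus `ω`: equal if `τ (r - 1) ≥ s'`; if `τ r ≤ s'` the one
of `τ'` is `0` and `b r (τ r) - b r (τ (r - 1)) ≤ ω`; otherwise the difference is `b r s' - b r (τ (r - 1)) ≤ ω`.  BDD.
(2) In the same way with `min (τ r) t'` and INC (2).  (3) As in BDD, with INC (3) for the lower bound. -/
def ModStmt : Prop := ∀ b : Env, Cts b → ∀ (m n : ℤ) (ω : ℝ), m ≤ n →
  (∀ s s' t, s ≤ s' → s' ≤ t → (∀ r, m ≤ r → r ≤ n → ∀ x y, s ≤ x → x ≤ s' → s ≤ y → y ≤ s' →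
    |b r x - b r y| ≤ ω) → |L b m s n t - L b m s' n t| ≤ ((n : ℝ) - m + 1) * ω) ∧
  (∀ s t' t, s ≤ t' → t' ≤ t → (∀ r, m ≤ r → r ≤ n → ∀ x y, t' ≤ x → x ≤ t → t' ≤ y → y ≤ t →
    |b r x - b r y| ≤ ω) → |L b m s n t - L b m s n t'| ≤ ((n : ℝ) - m + 1) * ω) ∧
  ∀ s t, s ≤ t → (∀ r, m ≤ r → r ≤ n → ∀ x y, s ≤ x → x ≤ t → s ≤ y → y ≤ t →
    |b r x - b r y| ≤ ω) → |L b m s n t| ≤ ((n : ℝ) - m + 1) * ω

/-- CTL: continuity in both times.

Proof.  At `p = (s₀, t₀)`: all `b r`, `m ≤ r ≤ n`, are uniformly continuous on `[s₀ - 1, t₀ + 1]`: for `ε > 0` there is `δ ∈ (0, 1)` with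
`|b r x - b r y| ≤ ε` if `|x - y| ≤ δ`.  Case `s₀ < t₀`: for `(s, t)` with `|s - s₀|`, `|t - t₀| ≤ δ`, `2 δ < t₀ - s₀`, MOD (1) (between `s` and `s₀`, end
`t`) and MOD (2) (between `t` and `t₀`, start `s₀`).  Case `s₀ = t₀`: `L = 0` there (ONE (2)), `|L b m s n t| ≤ (n - m + 1) ε` by
MOD (3) if `s ≤ t` are within `δ/2` of `s₀`. -/
def CtlStmt : Prop := ∀ b : Env, Cts b → ∀ (m n : ℤ), m ≤ n →
  ContinuousOn (fun p : ℝ × ℝ => L b m p.1 n p.2) {p | p.1 ≤ p.2}

/-! ## 4. Crossing paths -/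

/-- CRO: two paths which change their order have a common point.

Proof.  Let `k` be the first level in `[m, n]` with `σ k ≤ τ k` (`n` is one).  Then `τ (k - 1) ≤ σ (k - 1)` (for `k = m` the
hypothesis, otherwise minimality), and `u = σ (k - 1)`. -/
def CroStmt : Prop := ∀ (m n : ℤ) (τ σ : ℤ → ℝ), m ≤ n → (∀ r, m ≤ r → r ≤ n → τ (r - 1) ≤ τ r) →
  (∀ r, m ≤ r → r ≤ n → σ (r - 1) ≤ σ r) → τ (m - 1) ≤ σ (m - 1) → σ n ≤ τ n →
  ∃ k u, m ≤ k ∧ k ≤ n ∧ τ (k - 1) ≤ u ∧ u ≤ τ k ∧ σ (k - 1) ≤ u ∧ u ≤ σ k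

/-- QUA: the quadrangle inequality: starts `(m', s)` (upper left) and `(m, s')` (lower right), ends `(n', t)` (upper
left) and `(n, t')` (lower right).  For `m = m'`, `n = n'` this is supermodularity in the times, for `s = s'` it is
the inequality for the vertical increments.

Proof.  Optimal paths `τ` from `(m', s)` to `(n, t')`, `σ` from `(m, s')` to `(n', t)` (EXI).  `τ (m' - 1) = s ≤ s' ≤ σ (m' - 1)` and
`σ n ≤ t ≤ t' = τ n` (PAB); CRO on the levels `m', .., n`: a common point `(k, u)`.  PNT for both, then SPK for the two new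
pairs. -/
def QuaStmt : Prop := ∀ b : Env, Cts b → ∀ (m m' n n' : ℤ) (s s' t t' : ℝ), m ≤ m' → m' ≤ n → n ≤ n' →
  s ≤ s' → s' ≤ t → t ≤ t' →
  L b m' s n t' + L b m s' n' t ≤ L b m' s n' t + L b m s' n t'

/-- STP: the steps of a geodesic.

Proof.  (1) `Geo b m τ` gives that `τ` is an optimal path from `(r, τ (r - 1))` to `(n, τ n)`; ENA (first level) and `Geo` on the levels
`r + 1, .., n`: `L b r (τ (r - 1)) n (τ n) = b r (τ r) - b r (τ (r - 1)) + L b (r + 1) (τ r) n (τ n)`; BEL (1) for `s'`.  (2) the equation.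
(3) PNT. -/
def StpStmt : Prop := ∀ b : Env, Cts b → ∀ (m : ℤ) (τ : ℤ → ℝ), Geo b m τ → ∀ r n : ℤ, m ≤ r → r < n →
  (∀ s', τ (r - 1) ≤ s' → s' ≤ τ n →
    b r s' + L b (r + 1) s' n (τ n) ≤ b r (τ r) + L b (r + 1) (τ r) n (τ n)) ∧
  (L b r (τ (r - 1)) n (τ n) = b r (τ r) - b r (τ (r - 1)) + L b (r + 1) (τ r) n (τ n)) ∧
  ∀ k u, r ≤ k → k ≤ n → τ (k - 1) ≤ u → u ≤ τ k →
    L b r (τ (r - 1)) n (τ n) = L b r (τ (r - 1)) k u + L b k u n (τ n)

/-! ## 5. Transformations -/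

/-- COV: translations and scaling.

Proof.  (1) `τ ↦ τ + a` is a bijection of the paths, `En (shT a b) τ m n = En b (τ + a) m n` (the constants `b r a` cancel).
(2) `τ ↦ τ (· - k)`, shift of the summation index.  (3) `τ ↦ l τ`, `En (scl l b) τ m n = En b (l τ) m n / √l`;
`Real.sSup_smul_of_nonneg`.  The sets of energies are equal (or images), no continuity is needed. -/
def CovStmt : Prop := ∀ (b : Env) (m n : ℤ) (s t : ℝ),
  (∀ a : ℝ, L (shT a b) m s n t = L b m (s + a) n (t + a)) ∧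
  (∀ k : ℤ, L (shL k b) m s n t = L b (m + k) s (n + k) t) ∧
  ∀ l : ℝ, 0 < l → L (scl l b) m s n t = L b m (l * s) n (l * t) / Real.sqrt l

/-- LOC: `L` depends only on the increments of `b r` on `[s, t]`, `m ≤ r ≤ n`.

Proof.  The energies of all paths are equal (PAB). -/
def LocStmt : Prop := ∀ (b b' : Env) (c : ℤ → ℝ) (m n : ℤ) (s t : ℝ), m ≤ n →
  (∀ r, m ≤ r → r ≤ n → ∀ x, s ≤ x → x ≤ t → b r x = b' r x + c r) →
  L b m s n t = L b' m s n t

/-- LIP: Lipschitz dependence on `b`.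

Proof.  The energies of every path differ by at most `2 (n - m + 1) ω` (PAB); BDD. -/
def LipStmt : Prop := ∀ b b' : Env, Cts b → Cts b' → ∀ (m n : ℤ) (s t ω : ℝ), m ≤ n → s ≤ t →
  (∀ r, m ≤ r → r ≤ n → ∀ x, s ≤ x → x ≤ t → |b r x - b' r x| ≤ ω) →
  |L b m s n t - L b' m s n t| ≤ 2 * ((n : ℝ) - m + 1) * ω

/-- RAT: paths with rational positions are enough (for measurability).

Proof.  `s = t`: `L = 0` (ONE), `q r = 0` for `r < n` and `1` for `r ≥ n`, energy `0`.  `s < t`: `τ` optimal (EXI), changed to `s` below `m - 1`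
and to `t` above `n`, `q r = ⌊N (τ r - s)/(t - s)⌋/N`: `0` at `m - 1`, `1` at `n`, monotone, in `[0, 1]` (PAB), and
`|s + q r (t - s) - τ r| ≤ (t - s)/N`.  The `b r`, `m ≤ r ≤ n`, are uniformly continuous on `[s, t]`: for large `N` the energy is
larger than `C`. -/
def RatStmt : Prop := ∀ b : Env, Cts b → ∀ (m n : ℤ) (s t C : ℝ), m ≤ n → s ≤ t → C < L b m s n t →
  ∃ q : ℤ → ℚ, (∀ r, 0 ≤ q r ∧ q r ≤ 1) ∧ (∀ r, r < m → q r = 0) ∧ (∀ r, n ≤ r → q r = 1) ∧
    (∀ r, m ≤ r → r ≤ n → q (r - 1) ≤ q r) ∧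
    C < En b (fun r => s + q r * (t - s)) m n

end

end Pool.Agent.BLP
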