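import Pool.Agent.BLP.StmtsA

/-!
# Squad BLP, block D: from the bound for the probability of valleys to the theorem

Complete proofs in the docstrings.  All rows are independent; the statements named in the proofs
are hypotheses `(h : XxxStmt)`.
-/

namespace Pool.Agent.BLP

open MeasureTheory ProbabilityTheory Filter Topology Finset
open scoped ENNReal

noncomputable section

/-- the four-point quantity: limit of the bound for valleys between the directions `x < y` -/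
def wv (c x y : ℝ) : ℝ :=
  c / 2 * ((Real.sqrt y - Real.sqrt x) + (1 / Real.sqrt x - 1 / Real.sqrt y))

/-- bound for the probability of valleys (proved in block V from the box inequality and `LLNc`) -/
def CntB {X : Type} [MeasurableSpace X] (μ : Measure X) (B : X → Env) (c : ℝ) : Prop :=
  ∀ (α α' : ℚ) (p q : ℕ) (d δ : ℝ), 0 < α → α < α' → 1 ≤ p → 1 ≤ q → 0 < d → 0 < δ →
    ∃ᶠ n : ℕ in atTop, μ {x | Val α α' p d q n (B x)} ≤
      ENNReal.ofReal (p * q * wv c α α' ^ 2 / (2 * d ^ 2) + δ)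

/-- GEO: GEODESICS WHICH ARE NOT BUSEMANN GEODESICS ARE VALLEYS, one level `n`.

`x₁ = n ρ₁`, `x₂ = τ n`, `x₃ = n ρ₃`.

PROOF.  Write `M = m + Q`.  (0) By monotonicity all `τ j`, `m - 1 ≤ j ≤ M - 1`, are in `[k, k + p]` (they are
between `τ (m - 1)` and `τ (M - 1)`), and `k + p` is smaller than the three ends.
(1) `Dx` at the end `τ n` is
`L b m (τ (m - 1)) n (τ n) - L b M (τ (M - 1)) n (τ n) = ∑ j = m, ..., M - 1 of (b j (τ j) - b j (τ (j - 1))) =: E` by StpStmt (second part)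
for `j = m, ..., M - 1` (telescoping sum; induction on the number of levels; or directly from `Geo` and
EnaStmt).
(2) For every end `x ≥ k + p` and every `j` in `[m, M - 1]`, BelStmt (first part) gives
`b j (τ j) - b j (τ (j - 1)) + L b (j + 1) (τ j) n x ≤ L b j (τ (j - 1)) n x`.
(3) For `j = r` and `x = x₁`: BelStmt with `u = s` gives
`b r s - b r (τ (r - 1)) + L b (r + 1) s n x₁ ≤ L b r (τ (r - 1)) n x₁`, and by the closeness hypothesis (`j = r + 1`, times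
`τ r, s`) `L b (r + 1) (τ r) n x₁ - L b (r + 1) s n x₁ ≤ β ρ₁ (r + 1, τ r) (r + 1, s) + d`, so
`L b r (τ (r - 1)) n x₁ ≥ b r (τ r) - b r (τ (r - 1)) + L b (r + 1) (τ r) n x₁ + (b r s - b r (τ r) - β ρ₁ (r + 1, τ r) (r + 1, s) - d)`, and the
last bracket is `> 2 d`.
(4) Sum of (2) for `j ≠ r` and (3) for `j = r`: `L b m (τ (m - 1)) n x₁ - L b M (τ (M - 1)) n x₁ > E + 2 d`.  In the same way for
`x₃` with `r', s'`. -/
def GeoStmt : Prop := EnaStmt → BelStmt → StpStmt →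
  ∀ (b : Env) (β : ℚ → ℤ × ℝ → ℤ × ℝ → ℝ) (m k : ℤ) (p Q n : ℕ) (ρ₁ ρ₃ d : ℚ) (τ : ℤ → ℝ)
    (r r' : ℤ) (s s' : ℝ), Cts b → Geo b m τ → 1 ≤ Q → 0 < d → m + Q ≤ n →
    k ≤ τ (m - 1) → τ (m + Q - 1) ≤ k + p → (k : ℝ) + p ≤ n * ρ₁ → (n : ℝ) * ρ₁ ≤ τ n →
    τ n ≤ n * ρ₃ → Clo b β m k p Q ρ₁ d n → Clo b β m k p Q ρ₃ d n →
    m ≤ r → r < m + Q → m ≤ r' → r' < m + Q →
    τ (r - 1) ≤ s → s ≤ k + p → τ (r' - 1) ≤ s' → s' ≤ k + p → k ≤ s → k ≤ s' →
    3 * (d : ℝ) < b r s - b r (τ r) - β ρ₁ (r + 1, τ r) (r + 1, s) →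
    3 * (d : ℝ) < b r' s' - b r' (τ r') - β ρ₃ (r' + 1, τ r') (r' + 1, s') →
    Dx b m (τ (m - 1)) (m + Q) (τ (m + Q - 1)) n (τ n) + d <
      Dx b m (τ (m - 1)) (m + Q) (τ (m + Q - 1)) n (n * ρ₁) ∧
    Dx b m (τ (m - 1)) (m + Q) (τ (m + Q - 1)) n (τ n) + d <
      Dx b m (τ (m - 1)) (m + Q) (τ (m + Q - 1)) n (n * ρ₃)

/-- VLT: a valley in the translated environment.

PROOF.  `Val` for `shT k (shL m b)` with `N = (n - m).toNat` levels, `t₀ - k`, `t₁ - k` and the ends `x i - k`.  By CovStmt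
`L (shT k (shL m b)) 0 (t₀ - k) N (x - k) = L (shL m b) 0 t₀ N x = L b m t₀ (N + m) x`, `(N : ℤ) + m = n`, and
`L (shT k (shL m b)) Q (t₁ - k) N (x - k) = L b (Q + m) t₁ n x`. -/
def VltStmt : Prop := CovStmt → ∀ (b : Env) (m k : ℤ) (p d α α' : ℝ) (Q n : ℕ) (t₀ t₁ x₁ x₂ x₃ : ℝ),
  m ≤ n → k ≤ t₀ → t₀ ≤ k + p → k ≤ t₁ → t₁ ≤ k + p →
  α * ((n : ℝ) - m) ≤ x₁ - k → x₁ ≤ x₂ → x₂ ≤ x₃ → x₃ - k ≤ α' * ((n : ℝ) - m) →
  Dx b m t₀ (m + Q) t₁ n x₂ + d < Dx b m t₀ (m + Q) t₁ n x₁ →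
  Dx b m t₀ (m + Q) t₁ n x₂ + d < Dx b m t₀ (m + Q) t₁ n x₃ →
  Val α α' p d Q ((n : ℤ) - m).toNat (shT k (shL m b))

/-- GRD: choice of the grid point.

PROOF.  `i = ⌈θ G⌉ - 2` (as a natural number; `θ G ≥ 4`).  Then `i + 1 = ⌈θ G⌉ - 1 < θ G ≤ i + 2`.
`i ≥ θ G - 2 ≥ θ G / 2`, so `A i ≥ G` if `A θ ≥ 2`.  `i + 4 < θ G + 3 ≤ (θ + 1) G ≤ A G` (`G ≥ 3`).  `(i + 1) / G ≥ θ - 1 / G > θ - δ`
and `(i + 3) / G ≤ θ + 2 / G < θ + δ` if `G > 2 / δ`. -/
def GrdStmt : Prop := ∀ θ δ : ℝ, 0 < θ → 0 < δ → ∃ A G₀ : ℕ, 1 ≤ A ∧ 1 ≤ G₀ ∧ ∀ G : ℕ, G₀ ≤ G →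
  ∃ i : ℕ, G ≤ A * i ∧ i + 4 ≤ A * G ∧ θ - δ < ((i : ℝ) + 1) / G ∧ ((i : ℝ) + 1) / G < θ ∧
    θ < ((i : ℝ) + 3) / G ∧ ((i : ℝ) + 3) / G < θ + δ

/-- GOO: NO VALLEYS IMPLIES THE THEOREM.

PROOF.  Let `τ` be a geodesic from `(m, τ (m - 1))` of direction `θ`, not `BGeo` for `hl` and not `BGeo` for `hr`.  As `τ` is monotone
from `m - 1` on (`Geo`), there are `r ≥ m`, `s ≥ τ (r - 1)` with `b r (τ r) - hl (r + 1) (τ r) < b r s - hl (r + 1) s`, and `r' ≥ m`,
`s' ≥ τ (r' - 1)` with the same for `hr`.  Take a rational `d > 0` such that the two differences are `> 4 d`.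
By `LimL` at `(r + 1, s)` and at `(r + 1, τ r)` and additivity (`Mon`, first part) there is `δ₁ > 0` such that for all rational `ρ`
with `θ - δ₁ < ρ < θ`, `0 < ρ`: `b r s - b r (τ r) - β ρ (r + 1, τ r) (r + 1, s) > 3 d`
(`β ρ (r + 1, τ r) (r + 1, s) = β ρ (r + 1, 0) (r + 1, s) - β ρ (r + 1, 0) (r + 1, τ r)`; a set in `comap cast (𝓝[<] θ)` contains all rational
`ρ` in an interval `(θ - δ₁, θ)`).  In the same way `δ₂ > 0` for `hr` and `θ < ρ < θ + δ₂`.  `δ = min δ₁ δ₂`.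
GRD: `A`, `G₀`.  Parameters for `NoV`: `m₀ = min r r'`, `Q = |r - r'| + 1`, `k = ⌊τ (m₀ - 1)⌋`, `p ≥ 1` with `k + p` larger
than `τ (m₀ + Q - 1)`, `s`, `s'`; note `s ≥ τ (r - 1) ≥ τ (m₀ - 1) ≥ k`.  `NoV` gives `G ≥ G₀`, then GRD gives `i`; put
`ρ₁ = (i + 1) / G`, `ρ₃ = (i + 3) / G`.  There are infinitely many `n` without valley and with both `Clo`.
For all large `n`: `m₀ + Q ≤ n`, `k + p ≤ n ρ₁`, `n ρ₁ ≤ τ n ≤ n ρ₃` (`τ n / n → θ` and `ρ₁ < θ < ρ₃`), and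
`(i / G) (n - m₀) ≤ n ρ₁ - k`, `n ρ₃ - k ≤ ((i + 4) / G) (n - m₀)` (both differ by `n / G` plus a constant).  Take such an `n` which is
also one of the infinitely many: GEO (for the geodesic `τ` from level `m₀`: `Geo b m₀ τ` follows from `Geo b m τ`) and VLT
(`t₀ = τ (m₀ - 1)`, `t₁ = τ (m₀ + Q - 1)`, `x₁ = n ρ₁`, `x₂ = τ n`, `x₃ = n ρ₃`) give a valley: contradiction. -/
def GooStmt' : Prop := EnaStmt → BelStmt → StpStmt → CovStmt → GeoStmt → VltStmt → GrdStmt →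
  ∀ (b : Env) (β : ℚ → ℤ × ℝ → ℤ × ℝ → ℝ), Cts b → Mon b β → NoV b β → Good b β

/-- FAT: Fatou's lemma for arbitrary sets.

PROOF.  `{x | ∀ᶠ n, x ∈ S n}` is the increasing union of the sets `T N = ⋂ n ≥ N, S n`, so its (outer) measure is the
supremum of the measures of the `T N` (`Monotone.measure_iUnion`, no measurability is needed), and
`T N ⊆ S n` for some `n ≥ N` with `μ (S n) ≤ C`. -/
def FatStmt : Prop := ∀ (X : Type) [MeasurableSpace X] (μ : Measure X) (S : ℕ → Set X) (C : ℝ≥0∞),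
  (∃ᶠ n in atTop, μ (S n) ≤ C) → μ {x | ∀ᶠ n in atTop, x ∈ S n} ≤ C

/-- INV: invariance of the measure of events, for arbitrary sets.

PROOF.  Let `T` be the map of `Sp.lv m`, `U` the map of `Sp.tr k`.  `{x | Q (shT k (shL m (B x)))}`: for almost all `x`,
`shL m (B x) = B (T x)`, so the set is, up to a null set, `T ⁻¹' {y | Q (shT k (B y))}`, and `μ (T ⁻¹' S) ≤ (μ.map T) S = μ S`
for every set `S` (`MeasureTheory.Measure.le_map_apply`); then in the same way with `U`. -/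
def InvStmt : Prop := ∀ (X : Type) [MeasurableSpace X] (μ : Measure X) (B : X → Env), Sp μ B →
  ∀ (Q : Env → Prop) (m k : ℤ), μ {x | Q (shT k (shL m (B x)))} ≤ μ {x | Q (B x)}

/-- CLO: closeness in probability.

PROOF.  There are finitely many levels `j` in `(m, m + q]`; it is enough that for each of them the measure of
`{x | ∃ t ∈ [k, k + p], d / 2 < |L (B x) j k n (n ρ) - L (B x) j t n (n ρ) - β ρ (j, k) (j, t) x|}` tends to `0`: for two times `s, t`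
use additivity `β ρ (j, s) (j, t) = β ρ (j, k) (j, t) - β ρ (j, k) (j, s)` (`Mon`, for almost all `x`).
Fix `j`, put `F n t = L (B x) j k n (n ρ) - L (B x) j t n (n ρ) - (B x j t - B x j k)`: nondecreasing in `t` on `[k, k + p]` if `j ≤ n` and
`k + p ≤ n ρ` (IncStmt (1)), and `F t = β ρ (j, k) (j, t) x - (B x j t - B x j k)`, nondecreasing (`Mon`, parts 1 and 2) and continuous in
`t` (`Con` with `p ↦ β ρ (j, k) (j, t)`), for almost all `x`.
For the grid `t i = k + i p / N`, `i = 0, ..., N`: if `|F n (t i) - F (t i)| ≤ d / 8` for all `i` and `F (t (i + 1)) - F (t i) ≤ d / 8` for all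
`i < N`, then `|F n t - F t| ≤ d / 4` for all `t` in `[k, k + p]` (both are monotone).
Let `g N x` be the maximum over `i < N` of `F (t (i + 1)) - F (t i)`.  It is a.e. measurable: `β ρ y z` is the limit in measure of
measurable functions (`TendstoInMeasure.aemeasurable`), and tends to `0` for almost all `x` (uniform continuity on
`[k, k + p]`), so `μ {x | d / 8 < g N x} → 0` (`tendstoInMeasure_of_tendsto_ae`).  Given `η > 0` choose `N` with measure `< η`; then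
for this `N` the measure of `{x | ∃ i ≤ N, d / 8 < |F n (t i) - F (t i)|}` tends to `0` as `n → ∞` (`InM` for the `N + 1` pairs
`(j, k), (j, t i)`).  So the limsup of the measures is `≤ η`. -/
def CloStmt : Prop := IncStmt → ∀ (X : Type) [MeasurableSpace X] (μ : Measure X) (B : X → Env)
  (β : ℚ → ℤ × ℝ → ℤ × ℝ → X → ℝ), Sp μ B → (∀ m s n t, Measurable fun x => L (B x) m s n t) →
  InM μ B β → (∀ᵐ x ∂μ, Con (fun q y z => β q y z x) ∧ Mon (B x) (fun q y z => β q y z x)) →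
  ∀ (m k : ℤ) (p q : ℕ) (ρ d : ℚ), 0 < ρ → 0 < d →
    Tendsto (fun n : ℕ => μ {x | ¬ Clo (B x) (fun q y z => β q y z x) m k p q ρ d n}) atTop (𝓝 0)

/-- WVB: bound for `wv` on the grid.

PROOF.  For `1 / A ≤ x ≤ y`, `A ≥ 1`: `√y - √x = (y - x) / (√x + √y) ≤ (y - x) √A`, and
`1/√x - 1/√y = (√y - √x) / (√x √y) ≤ A (√y - √x) ≤ A √A (y - x)`.  So `0 ≤ wv c x y ≤ c A² (y - x)` (`√A ≤ A`, `A √A ≤ A²`, sum
`≤ 2 A²`).  With `y - x = 4 / G`: `wv ^ 2 ≤ (4 c A² / G)²`; there are at most `A G + 1` values of `i`, so the sum is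
`≤ (A G + 1) (p q (4 c A²)² / (G² 2 d²) + δ)` with `δ = 1 / G²`, which tends to `0`. -/
def WvbStmt : Prop := ∀ (c : ℝ) (p q A : ℕ) (d : ℝ), 0 < c → 1 ≤ A → 0 < d →
  Tendsto (fun G : ℕ => ∑ i ∈ (Finset.range (A * G + 1)).filter (fun i => G ≤ A * i),
    (p * q * wv c ((i : ℝ) / G) (((i : ℝ) + 4) / G) ^ 2 / (2 * d ^ 2) + 3 / (G : ℝ) ^ 2))
    atTop (𝓝 0)

/-- NVP: NO VALLEYS, ALMOST SURELY.

PROOF.  It is enough to prove it for one tuple `(m, k, p, q, A, G₀, d)` (countably many: `ae_all_iff`).  For `G ≥ max G₀ 1` let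
`I G = {i ≤ A G : G ≤ A i, i + 4 ≤ A G}` (so `i ≥ 1`), and for `i ∈ I G`
`S i n = {x | Val (i / G) ((i + 4) / G) p d q (n - m).toNat (shT k (shL m (B x)))} ∪ {x | ¬ Clo .. ((i + 1) / G) d n} ∪`
`{x | ¬ Clo .. ((i + 3) / G) d n}`.  If `x` is bad for the tuple then for every `G ≥ G₀` there is `i ∈ I G` with `x ∈ S i n` for all large `n`.
Fix `G` and `i`.  `CntB` with `α = i / G`, `α' = (i + 4) / G`, `δ = 1 / G²`: for infinitely many `N` the measure of
`{x | Val .. N (B x)}` is at most `ofReal (w i + 1 / G²)`, `w i = p q wv² / (2 d²)`; put `n = N + m` (for `N` large; `(n - m).toNat = N`;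
infinitely many `n`), INV: the same bound for the first set of `S i n`; by CLO the measures of the other two are at most `ofReal (1 / G²)`
for all large `n`.  So `μ (S i n) ≤ ofReal (w i + 3 / G²)` for infinitely many `n`, and FAT gives
`μ {x | ∀ᶠ n, x ∈ S i n} ≤ ofReal (w i + 3 / G²)`.  Sum over `i ∈ I G` (a subset of the set in WVB, all terms `≥ 0`): the
measure of the bad set is at most `ofReal` of the sum in WVB, for every `G ≥ G₀`; let `G → ∞`. -/
def NvpStmt : Prop := FatStmt → InvStmt → WvbStmt → ∀ (X : Type) [MeasurableSpace X] (μ : Measure X)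
  (B : X → Env) (β : ℚ → ℤ × ℝ → ℤ × ℝ → X → ℝ) (c : ℝ), Sp μ B → 0 < c → CntB μ B c →
  (∀ (m k : ℤ) (p q : ℕ) (ρ d : ℚ), 0 < ρ → 0 < d →
    Tendsto (fun n : ℕ => μ {x | ¬ Clo (B x) (fun q y z => β q y z x) m k p q ρ d n})
      atTop (𝓝 0)) →
  ∀ᵐ x ∂μ, NoV (B x) (fun q y z => β q y z x)

/-- UNQ: the continuous version of the Busemann functions is unique.

PROOF.  For every rational `q > 0` and all points `x, y`, `β q x y = β' q x y` almost surely
(`tendstoInMeasure_ae_unique`).  So almost surely this holds for all rational `q > 0` and all `x, y` with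
rational times (countable), and by continuity (`Con`: `p ↦ β q (m, p.1) (n, p.2)` is continuous on `ℝ × ℝ`, two continuous functions
which agree on the dense set of rational pairs agree) for all `x, y`. -/
def UnqStmt : Prop := ∀ (Ω : Type) [MeasurableSpace Ω] (P : Measure Ω) (B : Ω → Env)
  (β β' : ℚ → ℤ × ℝ → ℤ × ℝ → Ω → ℝ), InM P B β → InM P B β' →
  (∀ᵐ ω ∂P, Con (fun q x y => β q x y ω)) → (∀ᵐ ω ∂P, Con (fun q x y => β' q x y ω)) →
  ∀ᵐ ω ∂P, ∀ q : ℚ, 0 < q → ∀ x y : ℤ × ℝ, β q x y ω = β' q x y ω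

/-- the final statement: the Busemann process exists, and for every version of it almost surely for
every direction all semi-infinite geodesics are Busemann geodesics -/
def ResStmt : Prop := ∀ (Ω : Type) [MeasurableSpace Ω] (P : Measure Ω) (B : Ω → Env), IsBM P B →
  (∃ β : ℚ → ℤ × ℝ → ℤ × ℝ → Ω → ℝ, InM P B β ∧ ∀ᵐ ω ∂P, Con (fun q x y => β q x y ω)) ∧
  ∀ β : ℚ → ℤ × ℝ → ℤ × ℝ → Ω → ℝ, InM P B β → (∀ᵐ ω ∂P, Con (fun q x y => β q x y ω)) →
    ∀ᵐ ω ∂P, ∀ θ : ℝ, 0 < θ → ∃ hl hr : ℤ → ℝ → ℝ,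
      LimL (fun q x y => β q x y ω) θ hl ∧ LimR (fun q x y => β q x y ω) θ hr ∧
      ∀ (m : ℤ) (τ : ℤ → ℝ), Geo (B ω) m τ → Dir θ τ → BGeo (B ω) hl m τ ∨ BGeo (B ω) hr m τ

/-- RES: the final statement from the main theorem.

PROOF.  Existence: `MainStmt`.  For a version `β'`: by UNQ it agrees with the `β` of `MainStmt` for all rational `q > 0` and all
points, almost surely; `LimL` and `LimR` at `θ > 0` depend only on the values of `β` for rational `q > 0` (both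
filters contain the set of positive rationals: `comap cast (𝓝[<] θ)` contains `{q | 0 < q}` because `Ioi 0` is a neighbourhood of
`θ`), so the limits exist for `β'` and are the same. -/
def ResStmt' : Prop := MainStmt → UnqStmt → ResStmt

end

end Pool.Agent.BLP
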