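import Pool.Agent.BLP.Defs

/-!
# Squad BLP, block M: measurability, moments and the law of large numbers

Result of the block: `Sp μ B → ∃ c, LLNc μ B c` (row `M_FIN`).

Every row may use (as hypotheses) all statements of block A (`StmtsA.lean`: deterministic
last-passage percolation for continuous environments: energies bounded above, attained maxima,
Bellman equation, superadditivity, covariance under `shT`, `shL`, `scl`, continuity in the times)
and all other statements of this file.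

Notation of the docstrings: `L(m,s;n,t) = L b m s n t`; `b[r](s,t) = b r t - b r s`;
`g(n) = gg μ B n = E L(0,0;n-1,n)` (`n` levels, time interval `[0,n]`).

Facts of block A used here, for `Cts b`, `m ≤ n`, `s ≤ t`:
* (A1) the set of energies in the definition of `L b m s n t` is nonempty and bounded above, the
  supremum is attained;
* (A2) Bellman: `L b m s n t` is the maximum over `u ∈ [s,t]` of
  `b[m](s,u) + L b (m+1) u n t` if `m < n`, and `L b m s m t = b[m](s,t)`;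
* (A3) superadditivity: `L b m s k u + L b (k+1) u n t ≤ L b m s n t` (`m ≤ k < n`), and
  `L b m s k u + L b k u n t ≤ L b m s n t` (`m ≤ k ≤ n`), `s ≤ u ≤ t`;
* (A4) `L (shT a b) m s n t = L b m (s+a) n (t+a)`, `L (shL k b) m s n t = L b (m+k) s (n+k) t`,
  `L (scl l b) m s n t = L b m (l s) n (l t) / √l` for `l > 0`;
* (A5) `L b m s n t` is continuous in `s` and in `t` on `s ≤ t`.
If `n < m` or `t < s` then `L b m s n t = 0` (the set of energies is empty or `{0}`; `sSup ∅ = 0`).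
-/

namespace Pool.Agent.BLP

open MeasureTheory ProbabilityTheory Filter Topology Finset
open scoped ENNReal

noncomputable section

/-- the oscillation of `b r` in the unit interval `[j, j + 1]`, seen from `j` -/
def Os (b : Env) (r : ℤ) (j : ℕ) : ℝ := sSup ((fun u => |b r u - b r j|) '' Set.Icc (j : ℝ) (j + 1))

/-- the contribution of level `r` to the lattice path bound -/
def Xc (b : Env) (r : ℤ) (i i' : ℕ) : ℝ := b r i' - b r i + Os b r i + Os b r i'

/-- the expectation of the last-passage value over `n` levels and the time interval `[0, n]` -/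
def gg {X : Type} [MeasurableSpace X] (μ : Measure X) (B : X → Env) (n : ℕ) : ℝ :=
  ∫ x, L (B x) 0 0 ((n : ℤ) - 1) n ∂μ

/-- the sum of `k` blocks of `m` levels, the block `j` on the time interval `[j m, (j + 1) m]` -/
def SB (b : Env) (m k : ℕ) : ℝ :=
  ∑ j ∈ range k, L b ((j : ℤ) * m) ((j : ℝ) * m) (((j : ℤ) + 1) * m - 1) (((j : ℝ) + 1) * m)

/-! ### Measurability and laws -/

/-- M_REP (deterministic).  `L b m s n t` is a fixed measurable function of the values of the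
levels `m..n` at rational times.

PROOF.  Induction on `n - m`, for all rational `s ≤ t` at once.  `m = n`: `L = b m t - b m s` (A2).
`m < n`: by (A2) and the continuity of `b m` and of `u ↦ L b (m+1) u n t` (A5) the maximum over
`u ∈ [s,t]` is the supremum over the rational `u ∈ [s,t]` (countable, nonempty) of
`b m u - b m s + L b (m+1) u n t`; every member is measurable in the values by induction, and a
countable supremum of measurable real functions is measurable (`Measurable.iSup`, index type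
`{u : ℚ // s ≤ u ∧ u ≤ t}`; for the values coming from `b` with `Cts b` the family is bounded above,
so that the supremum is the maximum). -/
def RepStmt : Prop := ∀ (m n : ℤ) (s t : ℚ), m ≤ n → s ≤ t →
  ∃ Φ : (↥(Finset.Icc m n) → ℚ → ℝ) → ℝ, Measurable Φ ∧
    ∀ b : Env, Cts b → L b m s n t = Φ (fun r q => b r q)

/-- M_MEA.  Measurability.  PROOF.  `m ≤ n`, `s ≤ t`: choose rational `s_j ↓ s`... precisely: if
`s < t` choose rationals `s_j, t_j` with `s ≤ s_j ≤ t_j`, `s_j → s`, `t_j → t` and use RepStmt,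
`Sp.mea`, `Sp.cts` and the continuity (A5) (pointwise limit of measurable functions,
`measurable_of_tendsto_metrizable`; first with fixed rational second time, then move the second
time); or directly by induction on `n - m` for ALL real `s ≤ t` with (A2): supremum over the `u` in
the countable set `(ℚ ∩ [s,t]) ∪ {s,t}`, which is dense in `[s,t]`.  If `n < m` or `t < s` then
`L = 0`. -/
def MeaStmt : Prop := ∀ (X : Type) [MeasurableSpace X] (μ : Measure X) (B : X → Env), Sp μ B →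
  ∀ (m : ℤ) (s : ℝ) (n : ℤ) (t : ℝ), Measurable fun x => L (B x) m s n t

/-- M_TRF.  Translations.  PROOF.  Let `T₁` be the map of `Sp.lv` for `k` and `T₂` the map of
`Sp.tr` for `a`, `T = T₂ ∘ T₁`.  For almost all `x`: `B (T x) = shT a (B (T₁ x)) = shT a (shL k (B x))`
(the first equality holds almost surely because `T₁` is measure preserving:
`MeasurePreserving.quasiMeasurePreserving`, `ae`), and (A4) twice. -/
def TrfStmt : Prop := ∀ (X : Type) [MeasurableSpace X] (μ : Measure X) (B : X → Env), Sp μ B →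
  ∀ (k : ℤ) (a : ℚ), ∃ T : X → X, MeasurePreserving T μ μ ∧ ∀ᵐ x ∂μ,
    ∀ (m : ℤ) (s : ℝ) (n : ℤ) (t : ℝ), L (B (T x)) m s n t = L (B x) (m + k) (s + a) (n + k) (t + a)

/-- M_SCF.  Scaling.  PROOF.  `Sp.sc` and (A4). -/
def ScfStmt : Prop := ∀ (X : Type) [MeasurableSpace X] (μ : Measure X) (B : X → Env), Sp μ B →
  ∀ l : ℚ, 0 < l → ∃ T : X → X, MeasurePreserving T μ μ ∧ ∀ᵐ x ∂μ,
    ∀ (m : ℤ) (s : ℝ) (n : ℤ) (t : ℝ), L (B (T x)) m s n t =
      L (B x) m (l * s) n (l * t) / Real.sqrt l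

/-! ### Maximal inequality, exponential moments -/

/-- M_LEV (STRONG).  Lévy's inequality for one level.

PROOF.  Let `S u = B x r u - B x r s`.
(1) Finite version: for points `s = u_0 < u_1 < ... < u_N = t` and `y ≥ 0`,
`μ (∃ k ≤ N, y < S u_k) ≤ 2 μ (y < S t)`: let `E_k` be the event that `k` is the first index with
`y < S u_k`; `E_k` is measurable with respect to `(B x r u)_{u ≤ u_k}` (use `S u_j = B r u_j - B r s`),
and the increment `B x r t - B x r u_k` is independent of it (`Sp.inc r u_k`, `IndepFun.comp`), has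
the law `gaussianReal 0 (t - u_k)` (`Sp.law`), which is symmetric, so it is `≥ 0` with probability
`≥ 1/2`.  So `μ (E_k ∩ {y < S t}) ≥ μ (E_k ∩ {0 ≤ B x r t - B x r u_k}) ≥ μ E_k / 2`; sum over `k`.
(2) The same for `-S` (same argument with reversed signs).
(3) `μ {∃ u ∈ [s,t], y < |S u|}`: by continuity this is the increasing union over `j` of the events
`{∃ k ≤ 2^j, y < |S (s + k (t-s) / 2^j)|}` (continuity from below), so it is
`≤ 2 μ (y < S t) + 2 μ (y < -S t)`.
(4) `μ (y < S t) ≤ exp (-y² / (2 (t - s)))`: Chernoff with `λ = y/(t-s)`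
(`ProbabilityTheory.measure_ge_le_exp_mul_mgf`, `mgf_gaussianReal`), the same for `-S t`. -/
def LvyStmt : Prop := ∀ (X : Type) [MeasurableSpace X] (μ : Measure X) (B : X → Env), Sp μ B →
  ∀ (r : ℤ) (s t y : ℝ), s < t → 0 ≤ y →
    μ {x | ∃ u, s ≤ u ∧ u ≤ t ∧ y < |B x r u - B x r s|} ≤
      ENNReal.ofReal (4 * Real.exp (-(y ^ 2) / (2 * (t - s))))

/-- M_OSM.  Exponential moments of the oscillations of the unit cells.

PROOF.  Measurable: `Os` is the supremum over the rational `u ∈ [j, j+1]` (continuity).  By LvyStmt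
with `s = j`, `t = j + 1`: `μ (Os > y) ≤ 4 exp (-y²/2)` for `y ≥ 0` (if `Os > y` there is `u` with
`y < |B r u - B r j|`).  `exp (κ Os) ≤ ∑_{i : ℕ} exp (κ (i+1)) 1_{Os ≥ i}` (take `i = ⌊Os⌋`), and
`μ (Os ≥ i) ≤ μ (Os > i - 1) ≤ 4 exp (-(i-1)²/2)` for `i ≥ 1`; the series
`exp κ + ∑_{i ≥ 1} 4 exp (κ (i+1) - (i-1)²/2)` converges and does not depend on `r`, `j`
(`lintegral_tsum`).  (For `κ ≤ 0` trivial; the statement is for `κ ≥ 0`.) -/
def OsmStmt : Prop := ∀ (X : Type) [MeasurableSpace X] (μ : Measure X) (B : X → Env), Sp μ B →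
  ∀ κ : ℝ, 0 ≤ κ → ∃ C : ℝ, ∀ (r : ℤ) (j : ℕ), Measurable (fun x => Os (B x) r j) ∧
    Integrable (fun x => Real.exp (κ * Os (B x) r j)) μ ∧
    ∫ x, Real.exp (κ * Os (B x) r j) ∂μ ≤ C

/-- M_XMG.  Exponential moment of the contribution of one level.

PROOF.  `exp (Xc) = exp (B r i' - B r i) exp (Os r i + Os r i')`; by Cauchy and Schwarz the
expectation is `≤ (E exp (2 (B r i' - B r i)))^(1/2) (E exp (2 Os r i + 2 Os r i'))^(1/2)`; the first
factor is `exp (i' - i)` (`mgf_gaussianReal`: `exp (4 (i'-i)/2)^(1/2)`), and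
`exp (2 Os + 2 Os') ≤ (exp (4 Os) + exp (4 Os')) / 2` has expectation `≤ C` (OsmStmt, `κ = 4`).  So
`φ = √C` works (or without Cauchy and Schwarz: `exp (u + v) ≤ (e^{i-i'} exp (2u) + e^{i'-i} exp (2v))/2`
for `u = B r i' - B r i`, `v = Os + Os'`: expectation `≤ e^{i'-i} (1 + C)/2`). -/
def XmgStmt : Prop := ∀ (X : Type) [MeasurableSpace X] (μ : Measure X) (B : X → Env), Sp μ B →
  ∃ φ : ℝ, 1 ≤ φ ∧ ∀ (r : ℤ) (i i' : ℕ), i ≤ i' →
    Measurable (fun x => Xc (B x) r i i') ∧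
    Integrable (fun x => Real.exp (Xc (B x) r i i')) μ ∧
    ∫ x, Real.exp (Xc (B x) r i i') ∂μ ≤ φ * Real.exp ((i' : ℝ) - i)

/-- M_XIN.  Independence of the levels.

PROOF.  `Xc b r i i'` is a measurable function of `(b r q)_{q ∈ ℚ}` for `Cts b` (`Os` as a supremum
over rational `u`).  So `Sp.ind` gives `iIndepFun` of `x ↦ Xc (B x) r (j r) (j (r+1))`, `r ∈ ℤ`
(`iIndepFun.comp`; change the index from `ℤ` to `ℕ` with `iIndepFun.precomp` and the injection
`ℕ → ℤ`), hence of the exponentials, and the expectation of the product is the product of the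
expectations (`iIndepFun.integral_prod_eq_prod_integral` or induction with
`IndepFun.integral_mul_eq_mul_integral`; nonnegative functions, integrable by XmgStmt); also the
product is integrable. -/
def XinStmt : Prop := ∀ (X : Type) [MeasurableSpace X] (μ : Measure X) (B : X → Env), Sp μ B →
  ∀ (N : ℕ) (j : ℕ → ℕ), Monotone j →
    Integrable (fun x => ∏ r ∈ range N, Real.exp (Xc (B x) r (j r) (j (r + 1)))) μ ∧
    ∫ x, ∏ r ∈ range N, Real.exp (Xc (B x) r (j r) (j (r + 1))) ∂μ =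
      ∏ r ∈ range N, ∫ x, Real.exp (Xc (B x) r (j r) (j (r + 1))) ∂μ

/-- M_CEL (deterministic).  Lattice path bound.

PROOF.  Take an optimal path `τ` (A1) from `(0,0)` to `(N-1, N)`, `τ (-1) = 0`, `τ (N-1) = N`, put
`j 0 = 0` and `j (r+1) = ⌊τ r⌋₊` for `r < N`; `j` is monotone (on `{0..N}`), `j N = N`;
`d r = j (r+1) - j r`.  Then `b[r](τ (r-1), τ r) = b[r](j r, j (r+1)) + b[r](j (r+1), τ r)
- b[r](j r, τ (r-1)) ≤ b[r](j r, j (r+1)) + Os b r (j (r+1)) + Os b r (j r)` since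
`τ r ∈ [j (r+1), j (r+1) + 1]` and `τ (r-1) ∈ [j r, j r + 1]` (`Os` is a supremum of a set which is
bounded above by continuity on a compact interval).  Sum over `r`. -/
def CelStmt : Prop := ∀ b : Env, Cts b → ∀ N : ℕ, 1 ≤ N →
  ∃ d : ℕ → ℕ, ∑ r ∈ range N, d r = N ∧
    L b 0 0 ((N : ℤ) - 1) N ≤
      ∑ r ∈ range N, Xc b r (∑ i ∈ range r, d i) (∑ i ∈ range (r + 1), d i)

/-- M_EXL.  Exponential moment of the last-passage value.

PROOF.  Let `𝒟` be the finite set of functions `d : Fin N → range (N+1)` (`Fintype.piFinset`, extend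
by `0` to a function on `ℕ`), `𝒟' ⊆ 𝒟` those with sum `N`.  By CelStmt (the `d` there can be cut off
outside of `{0..N-1}`, and every `d r ≤ N`) `exp L ≤ ∑_{d ∈ 𝒟'} ∏_r exp (Xc ...)`.  Take
expectations: XinStmt and XmgStmt give
`E exp L ≤ ∑_{d ∈ 𝒟'} ∏_r φ exp (d r) = ∑_{d ∈ 𝒟'} φ^N e^N = φ^N e^N #𝒟'`, and
`#𝒟' = 2^N ∑_{d ∈ 𝒟'} ∏_r 2^{-d r} ≤ 2^N ∏_r ∑_{i ≤ N} 2^{-i} ≤ 2^N 2^N` (`Finset.prod_univ_sum`).
So `K = 4 e φ` works.  Integrable: dominated by an integrable finite sum, measurable by MeaStmt. -/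
def ExlStmt : Prop := ∀ (X : Type) [MeasurableSpace X] (μ : Measure X) (B : X → Env), Sp μ B →
  ∃ K : ℝ, 1 ≤ K ∧ ∀ N : ℕ, 1 ≤ N →
    Integrable (fun x => Real.exp (L (B x) 0 0 ((N : ℤ) - 1) N)) μ ∧
    ∫ x, Real.exp (L (B x) 0 0 ((N : ℤ) - 1) N) ∂μ ≤ K ^ N

/-- M_INT.  All last-passage values are in `L²`.

PROOF.  If `n < m` or `t < s` the function is `0`.  Otherwise choose an integer `a ≤ s` and `N ≥ 1`
with `n - m + 1 ≤ N` and `t ≤ a + N`.  By (A3)
`b[m](a,s) + L(m,s;n,t) + b[n](t,a+N) ≤ L(m,a;m+N-1,a+N)` (run on level `m` from `a` to `s`, then the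
path, then on level `n` to `a + N`, then up), and `L(m,s;n,t) ≥ b[m](s,t)` (jump at time `t`).  The
increments of `b` are Gaussian (`Sp.law`), in `L²`.  `Z = L(m,a;m+N-1,a+N)` has the law of
`L(0,0;N-1,N)` (TrfStmt) so `E exp Z < oo` (ExlStmt), and `Z ≥ b[m](a,a+N)`; `Z² ≤ 2 exp Z` for
`Z ≥ 0` and `Z² ≤ b[m](a,a+N)²` for `Z < 0`: `Z ∈ L²`.  Sandwich. -/
def IntStmt : Prop := ∀ (X : Type) [MeasurableSpace X] (μ : Measure X) (B : X → Env), Sp μ B →
  ∀ (m : ℤ) (s : ℝ) (n : ℤ) (t : ℝ), MemLp (fun x => L (B x) m s n t) 2 μ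

/-- M_EAQ.  The expectation of the last-passage values (rational times).

PROOF.  `s = t`: every energy is `0`, `L = 0 = √0`.  `s < t`: `l = t - s > 0` rational.  TrfStmt with
`k = m`, `a = s`: `E L(m,s;n,t) = E L(0,0;n-m,l)`; ScfStmt with `l`:
`E L(0,0;n-m,l·1) = √l E L(0,0;n-m,1)`, and `aa (n-m+1).toNat = E L(0,0;n-m,1)`. -/
def EaqStmt : Prop := ∀ (X : Type) [MeasurableSpace X] (μ : Measure X) (B : X → Env), Sp μ B →
  ∀ (m n : ℤ) (s t : ℚ), m ≤ n → s ≤ t →
    ∫ x, L (B x) m s n t ∂μ = aa μ B (n - m + 1).toNat * Real.sqrt (t - s)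

/-! ### The constant -/

/-- M_GSA.  `g(n) = √n aa(n)` is superadditive and `g(n) ≤ C n`.

PROOF.  `g n = aa n √n`: EaqStmt with `m = 0`, `n - 1`, times `0`, `n` (for `n ≥ 1`; for `n = 0` both
sides are `0`: `L b 0 0 (-1) 0 = 0` since the only energy is the empty sum).
Superadditive: (A3) `L(0,0;n-1,n) + L(n,n;n+m-1,n+m) ≤ L(0,0;n+m-1,n+m)`, expectations (IntStmt),
the second has expectation `aa m √m = g m` (EaqStmt).  Upper bound: `y ≤ A + exp (y - A)`,
with `y = L(0,0;n-1,n)`, `A = n log K`: `g n ≤ n log K + 1 ≤ (log K + 1) n` (ExlStmt). -/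
def GsaStmt : Prop := ∀ (X : Type) [MeasurableSpace X] (μ : Measure X) (B : X → Env), Sp μ B →
  (∀ n : ℕ, gg μ B n = aa μ B n * Real.sqrt n) ∧
  (∀ n m : ℕ, 1 ≤ n → 1 ≤ m → gg μ B n + gg μ B m ≤ gg μ B (n + m)) ∧
  ∃ C : ℝ, ∀ n : ℕ, 1 ≤ n → gg μ B n ≤ C * n

/-- M_FEK (pure real analysis).  Fekete's lemma.  PROOF.  Mathlib `Subadditive` for `u n = -g n`
(`u 0` may be changed to `0`), bounded below for `u n / n`; `Subadditive.tendsto_lim`,
`Subadditive.lim_le_div`. -/
def FekStmt : Prop := ∀ (g : ℕ → ℝ) (C : ℝ), (∀ n m : ℕ, 1 ≤ n → 1 ≤ m → g n + g m ≤ g (n + m)) →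
  (∀ n : ℕ, 1 ≤ n → g n ≤ C * n) →
  ∃ c : ℝ, Tendsto (fun n : ℕ => g n / n) atTop (𝓝 c) ∧ ∀ n : ℕ, 1 ≤ n → g n ≤ c * n

/-- M_POS.  `g(2) > 0`.  PROOF.  `L(0,0;1,2) ≥ max (b[1](0,2)) (b[0](0,2))` (jump at time `0`, or at
time `2`).  `max (U, V) = (U + V + |U - V|)/2` for the independent centred Gaussian variables
`U = B 1 2 - B 1 0`, `V = B 0 2 - B 0 0` of variance `2` (`Sp.law`, `Sp.ind`): the expectation is
`E|U - V|/2`, which is positive: otherwise `U = V` almost surely, and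
`E (U-V)² = E U² + E V² = 4` by independence. -/
def PosStmt : Prop := ∀ (X : Type) [MeasurableSpace X] (μ : Measure X) (B : X → Env), Sp μ B →
  0 < gg μ B 2

/-! ### Law of large numbers -/

/-- M_BLK.  Block law of large numbers in `L¹`.

PROOF.  The summand `j` is `Φ_j` of the values of the levels `[j m, (j+1) m - 1]` at rational times
(RepStmt), these sets of levels are disjoint, so the summands are pairwise independent (`Sp.ind`,
`iIndepFun.indepFun_finset`, `IndepFun.comp`); they are in `L²` (IntStmt) with mean `gg m`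
(EaqStmt, GsaStmt) and the same variance `v` (TrfStmt with `k = j m`, `a = j m`).  So
`Var (SB k) = k v` (`IndepFun.variance_sum`), `E |SB/k - gg m| ≤ √(v/k) → 0`. -/
def BlkStmt : Prop := ∀ (X : Type) [MeasurableSpace X] (μ : Measure X) (B : X → Env), Sp μ B →
  ∀ m : ℕ, 1 ≤ m → Tendsto (fun k : ℕ => ∫ x, |SB (B x) m k / k - gg μ B m| ∂μ) atTop (𝓝 0)

/-- M_LOW.  The lower tail.

PROOF.  Fix `m ≥ 1`, write `n = k m + r`, `0 ≤ r < m`, `k ≥ 1`.  By (A3)
`L(0,0;n-1,n) ≥ SB k + b[km](km, n)` if `r ≥ 1` (after the blocks run on level `k m ≤ n - 1` from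
time `k m` to `n`, then up), and `≥ SB k` if `r = 0`; in both cases
`≥ SB k - |b[km](km,n)|`, and `E |b[km](km,n)| ≤ √m`.  So
`max (c - L/n) 0 ≤ |c - gg m/m| + |SB/(k m) - gg m / m| + |SB/(k m) - SB/n| + |b[km](km,n)|/n`.
Expectations: second term `(1/m) E|SB/k - gg m| → 0` (BlkStmt); third: `|SB| (1/(km) - 1/n) ≤
|SB| m / (k m n)`, `E|SB| ≤ k (|gg m| + 1)` for large `k`: `→ 0`; fourth `≤ √m/n → 0`.  So
`limsup ≤ |c - gg m/m|` for every `m ≥ 1`, and this tends to `0` as `m → oo`. -/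
def LowStmt : Prop := ∀ (X : Type) [MeasurableSpace X] (μ : Measure X) (B : X → Env), Sp μ B →
  ∀ c : ℝ, Tendsto (fun n : ℕ => gg μ B n / n) atTop (𝓝 c) →
    Tendsto (fun n : ℕ => ∫ x, max (c - L (B x) 0 0 ((n : ℤ) - 1) n / n) 0 ∂μ) atTop (𝓝 0)

/-- M_LL1.  `L¹` law of large numbers.  PROOF.  For `Z = L(0,0;n-1,n)/n - c`:
`|Z| = Z + 2 max (-Z) 0` and `E Z = gg n/n - c → 0`; LowStmt. -/
def Ll1Stmt : Prop := ∀ (X : Type) [MeasurableSpace X] (μ : Measure X) (B : X → Env), Sp μ B →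
  ∀ c : ℝ, Tendsto (fun n : ℕ => gg μ B n / n) atTop (𝓝 c) →
    Tendsto (fun n : ℕ => ∫ x, |L (B x) 0 0 ((n : ℤ) - 1) n / n - c| ∂μ) atTop (𝓝 0)

/-- M_LLQ.  Law of large numbers for a fixed rational direction.

PROOF.  `N = n + 1` levels; `l = y n / N > 0` rational (`n ≥ 1`); by ScfStmt `L(0,0;n,y n) =
L(0,0;n,l N)` has the law of `√l L(0,0;N-1,N)`.  So the probability is that of
`|√l L(0,0;N-1,N) - c √y n| > η n` (`√(n · y n) = √y n`), which by Markov's inequality is at most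
`(1/(η n)) E|√l L(0,0;N-1,N) - c √y n| ≤ (1/(η n)) (√l N E|L/N - c| + c |√l N - √y n|)`,
`√l N = √(y n N)`, `|√(y n N) - √y n| ≤ √y`; `→ 0` by Ll1Stmt. -/
def LlqStmt : Prop := ∀ (X : Type) [MeasurableSpace X] (μ : Measure X) (B : X → Env), Sp μ B →
  ∀ c : ℝ, Tendsto (fun n : ℕ => gg μ B n / n) atTop (𝓝 c) → ∀ (y : ℚ) (η : ℝ), 0 < y → 0 < η →
    Tendsto (fun n : ℕ => μ {x | η * n < |L (B x) 0 0 n (n * y) - c * Real.sqrt (n * (n * y))|})
      atTop (𝓝 0)

/-- M_OSL.  Oscillation of the last level.  PROOF.  LvyStmt with `r = n`, `s = 0`, `t = A n`,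
`y = η n`: the probability is `≤ 4 exp (-η² n² / (2 A n)) = 4 exp (-η² n/(2A)) → 0` (`n ≥ 1`). -/
def OslStmt : Prop := ∀ (X : Type) [MeasurableSpace X] (μ : Measure X) (B : X → Env), Sp μ B →
  ∀ A η : ℝ, 0 < A → 0 < η →
    Tendsto (fun n : ℕ => μ {x | ∃ u, 0 ≤ u ∧ u ≤ A * n ∧ η * n < |B x n u - B x n 0|}) atTop (𝓝 0)

/-- M_LLU (STRONG).  Law of large numbers, uniform in the end.

PROOF.  Given `A, η > 0`.  Choose a rational `δ > 0` with `c √δ ≤ η/4` (`c ≥ 0`), and `I` with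
`I δ ≥ A`.  Let `e_i = i δ n`, `i = 0..I`.  By (A3) for `e ≤ e'` (`0 ≤ e`):
`L(0,0;n,e) + b[n](e,e') ≤ L(0,0;n,e')`.  On the complement of the union of the events of LlqStmt
for `y = i δ`, `1 ≤ i ≤ I`, with `η/8`, and of OslStmt with `I δ`, `η/16`, we have for
`e ∈ [e_i, e_{i+1}]`, `0 ≤ i < I` (so for all `e ∈ [0, A n]`): `|b[n](e,e')| ≤ η n/8` for all
`e, e' ∈ [0, I δ n]`, and
`L(e) ≤ L(e_{i+1}) + η n/8 ≤ c √(n e_{i+1}) + η n/4 ≤ c √(n e) + c √(n δ n) + η n/4 ≤
c √(n e) + η n/2` (`√(x + y) ≤ √x + √y`),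
`L(e) ≥ L(e_i) - η n/8 ≥ c √(n e_i) - η n/4 ≥ c √(n e) - c √δ n - η n/4 ≥ c √(n e) - η n/2`
(for `i = 0` use `L(0) = 0`).  So the event of the statement is contained in a finite union of
events whose probabilities tend to `0`. -/
def LluStmt : Prop := ∀ (X : Type) [MeasurableSpace X] (μ : Measure X) (B : X → Env), Sp μ B →
  ∀ c : ℝ, 0 ≤ c → Tendsto (fun n : ℕ => gg μ B n / n) atTop (𝓝 c) → ∀ A η : ℝ, 0 < A → 0 < η →
    Tendsto (fun n : ℕ => μ {x | ∃ e : ℝ, 0 ≤ e ∧ e ≤ A * n ∧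
      η * n < |L (B x) 0 0 n e - c * Real.sqrt (n * e)|}) atTop (𝓝 0)

/-- M_FIN.  The result of the block.  PROOF.  GsaStmt and FekStmt give `c` with `gg n/n → c`,
`gg n ≤ c n`; `c ≥ gg 2/2 > 0` (PosStmt); `aa n/√n = gg n/n` and `aa n ≤ c √n` for `n ≥ 1`
(divide `gg n = aa n √n` by `√n`); LluStmt. -/
def FcmStmt : Prop := ∀ (X : Type) [MeasurableSpace X] (μ : Measure X) (B : X → Env), Sp μ B →
  ∃ c : ℝ, LLNc μ B c

end

end Pool.Agent.BLP
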