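import Pool.Agent.BLP.StmtsA
import Pool.Agent.BLP.StmtsM

/-!
# Squad BLP, block E, first half: localisation of geodesics

Results of this file: the expectations of the increments (`EmvStmt`) and the localisation of the
geodesics with end `(n', n' q)` at level `n` (`ElqStmt`).  Every row may use all statements of the
blocks A and M (`StmtsA.lean`, `StmtsM.lean`) as hypotheses; the ones which are needed are named.
Complete proofs in the docstrings.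

Notation of the docstrings: `L(k,y;n,e) = L (B x) k y n e`, `G_n(k,y) = L(k,y;n,nq)` (the value with
end `(n, n q)`), `a(n) = aa μ B n`, `lam(k,y) = (c/2) (k √q + y/√q)`.
Numbers `s t y q` of type `ℚ` are cast to `ℝ`, levels `n : ℕ` to `ℤ`.
-/

namespace Pool.Agent.BLP

open MeasureTheory ProbabilityTheory Filter Topology Finset
open scoped ENNReal

noncomputable section

/-! ### 1. Expectations -/

/-- E_EEX.  Integrability and expectation.  PROOF.  IntStmt (`MemLp 2` on a probability space is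
integrable: `MemLp.integrable`, instance from `Sp.prob`) and EaqStmt. -/
def EexStmt : Prop := ∀ (X : Type) [MeasurableSpace X] (μ : Measure X) (B : X → Env), Sp μ B →
  ∀ (k n : ℤ) (s t : ℚ), k ≤ n → s ≤ t →
    Integrable (fun x => L (B x) k s n t) μ ∧
      ∫ x, L (B x) k s n t ∂μ = aa μ B (n - k + 1).toNat * Real.sqrt (t - s)

/-- E_ECC.  `a(n)` is concave for `n ≥ 1`.

PROOF (with QuaStmt, EexStmt).  QuaStmt with `m = 0`, `m' = 1`, both ends at time `1`, levels `n` and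
`n' = n + 1`, both starts at time `0` (`m' ≤ n` since `1 ≤ n`):
`L(1,0;n,1) + L(0,0;n+1,1) ≤ L(1,0;n+1,1) + L(0,0;n,1)` for every `x` (`Sp.cts`).  Take expectations
(EexStmt, times `0` and `1`, `√(1 - 0) = 1`): the numbers of levels are `n`, `n + 2`, `n + 1`,
`n + 1`. -/
def EccStmt : Prop := ∀ (X : Type) [MeasurableSpace X] (μ : Measure X) (B : X → Env), Sp μ B →
  ∀ n : ℕ, 1 ≤ n → aa μ B n + aa μ B (n + 2) ≤ 2 * aa μ B (n + 1)

/-- E_EAS (pure real analysis).  Asymptotics for a concave sequence `a(n) ~ c √n`.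

PROOF.  (1) `d n = a (n + 1) - a n` is nonincreasing for `n ≥ 1`.  CLAIM `√n d n → c/2`.  Let
`0 < δ < 1`, `h = ⌊δ n⌋₊` (`1 ≤ h < n` for large `n`).  By monotonicity
`(a (n + h) - a n)/h ≤ d n ≤ (a n - a (n - h))/h` (sums of `h` values of `d`).  Since
`a n/√n → c`, `h/n → δ`, we get `√n (a (n + h) - a n)/h = (n/h) (a (n + h)/√n - a n/√n) →
(c/δ) (√(1 + δ) - 1) = c/(√(1 + δ) + 1)` and `√n (a n - a (n - h))/h → (c/δ) (1 - √(1 - δ)) =
c/(1 + √(1 - δ))`.  Both limits tend to `c/2` as `δ → 0`: for `ε > 0` choose `δ` so that both are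
`ε`-close to `c/2`; so eventually `|√n d n - c/2| ≤ 2 ε`.
(2) For every integer `j`: `√n (a (n + 1 + j) - a (n + 1)) → j c/2` (sum of `|j|` terms
`± √n d (n + i)`, `i` fixed, `√n/√(n + i) → 1`; here `a` is taken at `(n + 1 + j).toNat`, which is a
genuine index for large `n`).
(3) With `j = -k`: the expression is
`(a (n - k + 1) - a (n + 1)) √(n q - x) + a (n + 1) (√(n q - x) - √(n q))`.  The first term is
`√n (...) · √(q - x/n) → -k (c/2) √q`.  The second one is, for `n q > x`, `n q > 0`,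
`- x a (n + 1)/(√(n q - x) + √(n q)) = - x (a (n + 1)/√n)/(√(q - x/n) + √q) → - x c/(2 √q)`. -/
def EasStmt : Prop := ∀ (a : ℕ → ℝ) (c : ℝ), (∀ n : ℕ, 1 ≤ n → a n + a (n + 2) ≤ 2 * a (n + 1)) →
  Tendsto (fun n : ℕ => a n / Real.sqrt n) atTop (𝓝 c) → ∀ (q : ℝ) (k : ℤ) (x : ℝ), 0 < q →
    Tendsto (fun n : ℕ => a ((n : ℤ) - k + 1).toNat * Real.sqrt (n * q - x) -
      a (n + 1) * Real.sqrt (n * q)) atTop (𝓝 (-(c / 2 * (k * Real.sqrt q + x / Real.sqrt q))))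

/-- E_EMV.  The expectations of the increments.

PROOF (with EexStmt, EccStmt, EasStmt).  For large `n` (`k ≤ n`, `m ≤ n`, `s ≤ n q`, `t ≤ n q`) the
integral is `a(n - k + 1) √(n q - s) - a(n - m + 1) √(n q - t)` (EexStmt with the rational time
`(n : ℚ) * q`; `integral_sub`), so by EasStmt for `a = aa μ B` (concave by EccStmt, `a n/√n → c` by
`LLNc`) for `(k, s)` and for `(m, t)` (subtract the two limits) the limit is
`(c/2) (m √q + t/√q) - (c/2) (k √q + s/√q)`. -/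
def EmvStmt : Prop := ∀ (X : Type) [MeasurableSpace X] (μ : Measure X) (B : X → Env) (c : ℝ),
  Sp μ B → LLNc μ B c → ∀ q : ℚ, 0 < q → ∀ (k m : ℤ) (s t : ℚ),
    Tendsto (fun n : ℕ => ∫ x, (L (B x) k s n (n * q) - L (B x) m t n (n * q)) ∂μ) atTop
      (𝓝 (c / 2 * (((m : ℝ) - k) * Real.sqrt q + ((t : ℝ) - s) / Real.sqrt q)))

/-! ### 2. Laws of large numbers -/

/-- E_EBG.  Increments of one level.

PROOF.  Chebyshev: the second moment of `B x r t - B x r s` is `t - s ≤ A M` (`Sp.law`), so the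
probability is at most `A M/(η M)² = A/(η² M) ≤ δ` for `M ≥ A/(η² δ)`.  Or LvyStmt (block M) with
`y = η M`, `u = t` (`s < t`; for `s = t` the set is empty if `M ≥ 1`):
`4 exp (-(η M)²/(2 (t - s))) ≤ 4 exp (-η² M/(2 A)) ≤ δ` for large `M`. -/
def EbgStmt : Prop := ∀ (X : Type) [MeasurableSpace X] (μ : Measure X) (B : X → Env), Sp μ B →
  ∀ A η δ : ℝ, 0 < A → 0 < η → 0 < δ → ∃ M₀ : ℕ, ∀ M : ℕ, M₀ ≤ M → ∀ (r : ℤ) (s t : ℝ),
    s ≤ t → t - s ≤ A * M → μ {x | η * M < |B x r t - B x r s|} ≤ ENNReal.ofReal δ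

/-- E_ELS.  Law of large numbers for translated starts.

PROOF (with TrfStmt).  Let `S_N` be the set in the definition of `LLNc` for `A`, `η`; `μ S_N ≤ δ`
for all natural `N ≥ N₀`.  Let `N = n - k ≥ N₀`, and `T` the map of TrfStmt for `k` and `a = y`:
`L (B (T x)) 0 0 N e' = L (B x) k y n (e' + y)` (`0 + k = k`, `0 + y = y`, `N + k = n`).  So almost
every point of the set below is in `T ⁻¹' S_N` (`e' = e - y`), and `μ (T ⁻¹' S_N) ≤ μ S_N`
(`Measure.le_map_apply`, `MeasurePreserving.map_eq`; no measurability of `S_N` is needed). -/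
def ElsStmt : Prop := ∀ (X : Type) [MeasurableSpace X] (μ : Measure X) (B : X → Env) (c : ℝ),
  Sp μ B → LLNc μ B c → ∀ A η δ : ℝ, 0 < A → 0 < η → 0 < δ → ∃ N₀ : ℕ,
    ∀ (k n : ℤ) (y : ℚ), (N₀ : ℤ) ≤ n - k →
      μ {x | ∃ e : ℝ, y ≤ e ∧ e ≤ y + A * ((n : ℝ) - k) ∧
        η * ((n : ℝ) - k) < |L (B x) k y n e - c * Real.sqrt (((n : ℝ) - k) * (e - y))|} ≤
        ENNReal.ofReal δ

/-- E_EGM (pure real analysis).  Nearly optimal target points.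

PROOF.  For a large natural number `K` and all `M ≥ 1` let `U = (K M - k) √q` and
`V = (q K M - y)/√q`.  If `K ≥ 2 A + 1` and `q K ≥ 2 A + 1` then `k ≤ A M < K M`, `y < q K M` and
`U ≥ (K/2) M √q`, `V ≥ (K/2) M √q`, `U + V ≤ K' M` with `K' = 2 K √q + A √q + A/√q`.  We have
`U V = (K M - k) (q K M - y)` and `(c/2) (U + V) - c √(U V) = (c/2) (√U - √V)² ≥ 0`, and
`(√U - √V)² = (U - V)²/(√U + √V)² ≤ (U - V)²/U`, `|U - V| = |- k √q + y/√q| ≤ A M (√q + 1/√q)`, so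
`(c/2) (U + V) - c √(U V) ≤ (c/2) A² M² (√q + 1/√q)²/((K/2) M √q) ≤ (η/2) M` if `K` is large
(`K` is now fixed).  This is the last inequality.
Let `η' > 0` with `η' K' ≤ η/2`.  Since `a (N + 1)/√N = (a (N + 1)/√(N + 1)) √((N + 1)/N) → c`, for
`N = K M - k ≥ (K/2) M` large (`M ≥ M₀`) `a (N + 1) ≥ (c - η') √N`, so
`a (N + 1) √(q K M - y) ≥ (c - η') √(N (q K M - y)) = (c - η') √(U V)
≥ c √(U V) - η' (U + V)/2 ≥ (c/2) (U + V) - (η/2) M - (η/2) M`. -/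
def EgmStmt : Prop := ∀ (a : ℕ → ℝ) (c : ℝ), 0 < c →
  Tendsto (fun n : ℕ => a n / Real.sqrt n) atTop (𝓝 c) → ∀ q A η : ℝ, 0 < q → 0 < A → 0 < η →
    ∃ K M₀ : ℕ, 1 ≤ K ∧ 2 * A ≤ K ∧ 2 * A ≤ q * K ∧ ∀ M : ℕ, M₀ ≤ M → ∀ (k : ℤ) (y : ℝ),
      |(k : ℝ)| ≤ A * M → |y| ≤ A * M → k ≤ K * M ∧ y ≤ K * M * q ∧
      c / 2 * (((K : ℝ) * M - k) * Real.sqrt q + (K * M * q - y) / Real.sqrt q) -
        a (((K : ℤ) * M) - k + 1).toNat * Real.sqrt (K * M * q - y) ≤ η * M ∧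
      |c / 2 * (((K : ℝ) * M - k) * Real.sqrt q + (K * M * q - y) / Real.sqrt q) -
        c * Real.sqrt (((K : ℝ) * M - k) * (K * M * q - y))| ≤ η * M

/-- E_ELV (STRONG).  Law of large numbers for the increments of `G_n` at distance `M`, for
`n` larger than a number which may depend on everything.

PROOF (with SpkStmt, EexStmt, EmvStmt, ElsStmt, EgmStmt).  Let `p = (m, s)`, `A' = A + |m| + |s| + 1`
(so that `|m|, |s| ≤ A' M` for `M ≥ 1`), `η₁ = min (η δ/64) (η/8)`, and `K`, `M₀` from EgmStmt for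
`a = aa μ B`, `c`, `q`, `A'`, `η₁`.  Let `z = (K M, K M q)` (level, time) and, for `n ≥ K M`,
`g₁ = G_n(p) - G_n(z) - L(p;z)`, `g₂ = G_n(k,y) - G_n(z) - L(k,y;z)`.
Both are `≥ 0` (SpkStmt; `m, k ≤ K M ≤ n`, `s, y ≤ K M q ≤ n q`), and identically
`G_n(p) - G_n(k,y) = g₁ + L(p;z) - L(k,y;z) - g₂`.
(a) As `n → oo` the expectation of `g₂` tends (EmvStmt, EexStmt) to
`(c/2) ((K M - k) √q + (K M q - y)/√q) - a(K M - k + 1) √(K M q - y) ≤ η₁ M`, so it is `≤ 2 η₁ M`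
for all `n ≥ n₀` (`M ≥ 1`); Markov's inequality (`mul_meas_ge_le_integral_of_nonneg` or
`meas_ge_le_lintegral_div`): `μ (g₂ > η M/8) ≤ 2 η₁ M/(η M/8) ≤ δ/4`.  The same for `g₁`.
(b) ElsStmt with `A'' = 2 (q + A') + 2`, `η'' = η/(16 K)`, `δ/4`: for `M` large
`μ (|L(k,y;z) - c √((K M - k) (K M q - y))| > η'' (K M - k)) ≤ δ/4`, where
`K M/2 ≤ K M - k ≤ 2 K M` (as `|k| ≤ A' M ≤ K M/2`), `K M q - y ≤ (q K + A') M ≤ A'' (K M - k)`,
and `η'' (K M - k) ≤ η M/8`.  The same for `p`.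
(c) By the last inequality of EgmStmt `c √((K M - k) (K M q - y))` differs by at most `η₁ M ≤ η M/8`
from `c K M √q - lam(k,y)` (note `(K M - k) √q + (K M q - y)/√q = 2 K M √q - (k √q + y/√q)`), the
same for `p`, and `|lam(p)| ≤ η M/8` for `M` large.
Outside of the four events the distance of `G_n(p) - G_n(k,y)` and `lam(k,y)` is at most
`7 η M/8`. -/
def ElvStmt : Prop := ∀ (X : Type) [MeasurableSpace X] (μ : Measure X) (B : X → Env) (c : ℝ),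
  Sp μ B → LLNc μ B c → ∀ q : ℚ, 0 < q → ∀ (m : ℤ) (s : ℚ) (A η δ : ℝ), 0 < A → 0 < η → 0 < δ →
    ∃ M₀ : ℕ, ∀ M : ℕ, M₀ ≤ M → ∀ (k : ℤ) (y : ℚ), |(k : ℝ)| ≤ A * M → |(y : ℝ)| ≤ A * M →
      ∃ n₀ : ℕ, ∀ n : ℕ, n₀ ≤ n →
        μ {x | η * M < |L (B x) m s n (n * q) - L (B x) k y n (n * q) -
          c / 2 * (k * Real.sqrt q + y / Real.sqrt q)|} ≤ ENNReal.ofReal δ

/-! ### 3. Localisation -/

/-- E_EDL (pure real analysis).  Strict inequality to the left of the direction `q`.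

PROOF.  Choose `q₁ < q' < q` and let `g = (c/2) (√q - √q')²/√q > 0`.  For large `M`
`M q₁ - s ≤ M q'`, so for `0 ≤ t ≤ M q₁ - s`:
`(c/2) (M √q + t/√q) - c √(M t) = (c/2) (√(M √q) - √(t/√q))² ≥ g M`, because
`√(t/√q) ≤ √(M q'/√q) ≤ √(M √q)` and `√(M √q) - √(M q'/√q) = √M (√q - √q')/√(√q)`.
Error terms: `(M - m) (t + w) ≤ M t + |m| (t + w) + M w` with `t + w ≤ 2 M q'`, `w ≤ M q'/J`, so
`√((M - m) (t + w)) ≤ √(M t) + √(2 |m| M q') + M √(q'/J)` (`√(x + y) ≤ √x + √y`), and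
`|(c/2) s/√q|` is a constant.  Take `η = g/16`, `J` with `c √(q'/J) ≤ g/4`, then `M` large:
`c √(2 |m| M q') + (c/2) |s|/√q < g M/4`; total error `< 4 η M + g M/4 + g M/4 < g M`. -/
def EdlStmt : Prop := ∀ (c q q₁ : ℝ) (m : ℤ) (s : ℝ), 0 < c → 0 < q₁ → q₁ < q →
  ∃ (η : ℝ) (J M₀ : ℕ), 0 < η ∧ 1 ≤ J ∧ ∀ M : ℕ, M₀ ≤ M → ∀ t w : ℝ, 0 ≤ t → t ≤ M * q₁ - s →
    0 ≤ w → w ≤ (M * q₁ - s) / J →
      c * Real.sqrt (((M : ℝ) - m) * (t + w)) + 4 * η * M <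
        c / 2 * (M * Real.sqrt q + (s + t) / Real.sqrt q)

/-- E_EDR (pure real analysis).  Strict inequality to the right of the direction `q`.

PROOF.  `x₁ = M q₂`.  Choose `q < q' < q₂`; for large `M` `(M - m) q ≤ M q'`.  For `0 ≤ r ≤ M - m`:
`(c/2) (r √q + x₁/√q) - c √(r x₁) = (c/2) (√(x₁/√q) - √(r √q))² ≥ g M` with
`g = (c/2) (√q₂ - √q')²/√q`, because `√(r √q) ≤ √(M q'/√q) ≤ √(M q₂/√q)`.
Error terms: `(r + w) (M q₂ - s) ≤ r M q₂ + w M q₂ + (r + w) |s|`, with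
`w ≤ (M + |m|)/J + 1`, `r + w ≤ 2 (M + |m|) + 1`: so `√((r + w) (M q₂ - s)) ≤ √(r x₁) +
√(((M + |m|)/J + 1) M q₂) + √((2 (M + |m|) + 1) |s|)`, and `(c/2) |m| √q` is a constant.  Take
`η = g/16`, `J` with `c √(2 q₂/J) ≤ g/4`, then `M` large (so that `((M + |m|)/J + 1) ≤ 2 M/J` and
the other two errors are together `< g M/4`). -/
def EdrStmt : Prop := ∀ (c q q₂ : ℝ) (m : ℤ) (s : ℝ), 0 < c → 0 < q → q < q₂ →
  ∃ (η : ℝ) (J M₀ : ℕ), 0 < η ∧ 1 ≤ J ∧ ∀ M : ℕ, M₀ ≤ M → ∀ r w : ℝ, 0 ≤ r → r ≤ (M : ℝ) - m →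
    0 ≤ w → w ≤ ((M : ℝ) - m) / J + 1 →
      c * Real.sqrt ((r + w) * (M * q₂ - s)) + 4 * η * M <
        c / 2 * ((m + r) * Real.sqrt q + M * q₂ / Real.sqrt q)

/-- E_ECT (deterministic).  An optimal path crosses the time `v` on some level.

PROOF.  Let `τ` be an optimal path from `(m, s)` to `(n, t)` (ExiStmt), `k` the first level in
`[m, n]` with `v ≤ τ k` (`n` is one, since `τ n = t`; for example `Nat.find`).  Then `τ (k - 1) ≤ v`
(for `k = m` it is `s`, otherwise minimality), and PntStmt with `u = v`. -/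
def EctStmt : Prop := ∀ b : Env, Cts b → ∀ (m n : ℤ) (s v t : ℝ), m ≤ n → s ≤ v → v ≤ t →
  ∃ k, m ≤ k ∧ k ≤ n ∧ L b m s n t = L b m s k v + L b k v n t

/-- E_ELL (STRONG).  Localisation, left side: the geodesics from `(m, s)` to `(n, n q)` are at level
`M` to the right of `M q₁`.

PROOF (with IncStmt, ElvStmt, ElsStmt, EbgStmt, EdlStmt).  Take `η`, `J`, `M₀` from EdlStmt (`c` from
`LLNc`).  Let `M` be large, `p = (m, s)`, and `y_i = s + i (M q₁ - s)/J` (rational), `0 ≤ i ≤ J`, so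
`y_0 = s`, `y_J = M q₁`.  Let `u` be as in the event, `u ∈ [y_i, y_{i+1}]` with `i < J`.  By
IncStmt (1) on level `M` (start moved from `y_i` to `u`) and (2) (end moved from `u` to `y_{i+1}`)
`L(M,u;n,nq) ≤ L(M,y_i;n,nq) - (b M u - b M y_i)` and
`L(p;M,u) ≤ L(p;M,y_{i+1}) - (b M y_{i+1} - b M u)`.  So in the event
`G_n(p) - G_n(M,y_i) ≤ L(p;M,y_{i+1}) + |b M y_{i+1} - b M y_i|`   (needs `M ≤ n`, `M q₁ ≤ n q`).
For each of the finitely many `i`, with `δ' = δ/(3 J)`: outside of an event of probability `≤ δ'`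
(ElvStmt for `A = 1 + q₁ + |s|`, `k = M`, `y = y_i`, `n ≥ n₀`) the left side is
`≥ lam(M, y_i) - η M`; outside of an event of probability `≤ δ'` (ElsStmt for `(m, s)`, level `M`,
`A = 2 q₁ + 1`: `y_{i+1} - s ≤ M q₁ - s ≤ A (M - m)` for `M` large) `L(p;M,y_{i+1}) ≤
c √((M - m) (y_{i+1} - s)) + η (M - m)`, and `M - m ≤ 2 M` for `M` large; outside of an event of
probability `≤ δ'` (EbgStmt) `|b M y_{i+1} - b M y_i| ≤ η M`.  So outside of these `3 J` events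
`lam(M, y_i) ≤ c √((M - m) (y_{i+1} - s)) + 4 η M`, in contradiction to EdlStmt with
`t = y_i - s ≤ M q₁ - s`, `w = (M q₁ - s)/J`.  (`n₀` is the maximum of the `n₀(i)`.)  -/
def EllStmt : Prop := ∀ (X : Type) [MeasurableSpace X] (μ : Measure X) (B : X → Env) (c : ℝ),
  Sp μ B → LLNc μ B c → ∀ q₁ q : ℚ, 0 < q₁ → q₁ < q → ∀ (m : ℤ) (s : ℚ) (δ : ℝ), 0 < δ →
    ∃ M₀ : ℕ, ∀ M : ℕ, M₀ ≤ M → ∃ n₀ : ℕ, ∀ n : ℕ, n₀ ≤ n →
      μ {x | ∃ u : ℝ, s ≤ u ∧ u ≤ M * q₁ ∧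
        L (B x) m s n (n * q) ≤ L (B x) m s M u + L (B x) M u n (n * q)} ≤ ENNReal.ofReal δ

/-- E_ELR (STRONG).  Localisation, right side: the geodesics from `(m, s)` to `(n, n q)` are at level
`M` to the left of `M q₂`.

PROOF (with SpkStmt, LevStmt, EctStmt, ElvStmt, ElsStmt, EdrStmt).  Take `η`, `J`, `M₀` from EdrStmt.
Let `M` be large, `p = (m, s)`, `x₁ = M q₂ ≥ s`.  Let `u` be as in the event, `x₁ ≤ u ≤ n q`.  EctStmt
(for `L(p;M,u)` and `v = x₁`) gives `k ∈ [m, M]` with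
`L(p;M,u) = L(p;k,x₁) + L(k,x₁;M,u)`, so `G_n(p) ≤ L(p;k,x₁) + L(k,x₁;M,u) + L(M,u;n,nq) ≤
L(p;k,x₁) + G_n(k,x₁)` (SpkStmt).  Let `h = (M - m).toNat / J + 1` (natural division), so
`h ≤ (M - m)/J + 1`, `M - m < J h ≤ M - m + J`, and `k_j = m + j h`, `j = 0, .., J`.  With
`j = (k - m)/h < J` we have `k_j ≤ k ≤ k_{j+1}`, so by LevStmt
`L(p;k,x₁) ≤ L(p;k_{j+1},x₁)`, `G_n(k,x₁) ≤ G_n(k_j,x₁)` and
`G_n(p) - G_n(k_j,x₁) ≤ L(p;k_{j+1},x₁)`.
For each `j < J` with `k_j ≤ M` and `δ' = δ/(2 J)`: outside of an event of probability `≤ δ'`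
(ElvStmt for `k = k_j`, `y = x₁`, `A = 1 + |m| + q₂`, `n ≥ n₀`) the left side is
`≥ lam(k_j, x₁) - η M`; outside of an event of probability `≤ δ'` (ElsStmt for the start `(m, s)`
and the level `k_{j+1}`, `k_{j+1} - m = (j + 1) h ≥ h ≥ (M - m)/J`, large; `A = 2 J (q₂ + 1)`:
`x₁ - s ≤ A h` for `M` large) `L(p;k_{j+1},x₁) ≤ c √((j + 1) h (x₁ - s)) + η (j + 1) h`, where
`(j + 1) h ≤ M - m + J ≤ 2 M` for `M` large.  So
outside of these `2 J` events `lam(k_j, x₁) ≤ c √((j h + h) (M q₂ - s)) + 3 η M`, in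
contradiction to EdrStmt with `r = j h ≤ k - m ≤ M - m`, `w = h`. -/
def ElrStmt : Prop := ∀ (X : Type) [MeasurableSpace X] (μ : Measure X) (B : X → Env) (c : ℝ),
  Sp μ B → LLNc μ B c → ∀ q q₂ : ℚ, 0 < q → q < q₂ → ∀ (m : ℤ) (s : ℚ) (δ : ℝ), 0 < δ →
    ∃ M₀ : ℕ, ∀ M : ℕ, M₀ ≤ M → ∃ n₀ : ℕ, ∀ n : ℕ, n₀ ≤ n →
      μ {x | ∃ u : ℝ, M * q₂ ≤ u ∧ u ≤ n * q ∧
        L (B x) m s n (n * q) ≤ L (B x) m s M u + L (B x) M u n (n * q)} ≤ ENNReal.ofReal δ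

/-- E_ELQ.  Localisation: with high probability there is a point `(n, v)`, `n q₁ ≤ v ≤ n q₂`, on a
geodesic from `(k, s)` to `(n', n' q)`.

PROOF (with SplStmt, SpkStmt, LevStmt, EllStmt, ElrStmt).  `N` = maximum of the two `M₀` for `δ/2` and
of `k` and of a number `N'` with `s ≤ N' q₁`; `n₁` = maximum of the two `n₀` and of `n + 1` and of a
number with `s ≤ n' q` and `n q₂ ≤ n' q` for `n' ≥ n₁`.  Let `x` be outside of the two events (for
`m = k`, `M = n` and `n'` in the place of `n`).  SplStmt (2) (levels `n < n'`): there is `u`,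
`s ≤ u ≤ n' q`, with `L(k,s;n',n'q) = L(k,s;n,u) + L(n+1,u;n',n'q) ≤ L(k,s;n,u) + L(n,u;n',n'q)`
(LevStmt); with SpkStmt this is an equality.  Since `x` is not in the first event,
`n q₁ < u`; since it is not in the second, `u < n q₂`.  So `v = u`. -/
def ElqStmt : Prop := ∀ (X : Type) [MeasurableSpace X] (μ : Measure X) (B : X → Env) (c : ℝ),
  Sp μ B → LLNc μ B c → ∀ q₁ q q₂ : ℚ, 0 < q₁ → q₁ < q → q < q₂ → ∀ (k : ℤ) (s : ℚ) (δ : ℝ),
    0 < δ → ∃ N : ℕ, ∀ n : ℕ, N ≤ n → ∃ n₁ : ℕ, ∀ n' : ℕ, n₁ ≤ n' →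
      μ {x | ¬ ∃ v : ℝ, n * q₁ ≤ v ∧ v ≤ n * q₂ ∧ k ≤ n ∧ s ≤ v ∧ v ≤ n' * q ∧
        L (B x) k s n' (n' * q) = L (B x) k s n v + L (B x) n v n' (n' * q)} ≤ ENNReal.ofReal δ

end

end Pool.Agent.BLP
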