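import Pool.Agent.BLP.StmtsD
import Pool.Agent.BLP.StmtsM

/-!
# Squad BLP, block F: existence of the Busemann functions (second half)

Input of the block: `MeanV` and `LocV` (proved in block E).  Output: `FasStmt`.
Complete proofs in the docstrings.  All rows are independent; the statements named in the proofs
are hypotheses `(h : XxxStmt)`.

Notation: `Dx b m' s m s' n e = L b m' s n e - L b m s' n e`.  For `m ≤ m'` and `s ≤ s'` the point
`(m', s)` is to the upper left of `(m, s')`.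
-/

namespace Pool.Agent.BLP

open MeasureTheory ProbabilityTheory Filter Topology Finset
open scoped ENNReal

noncomputable section

/-- integrability, and the limit of the expectations of the increments (block E) -/
def MeanV {X : Type} [MeasurableSpace X] (μ : Measure X) (B : X → Env) (c : ℝ) : Prop :=
  (∀ (k n : ℤ) (s t : ℚ), k ≤ n → s ≤ t → Integrable (fun x => L (B x) k s n t) μ) ∧
  ∀ q : ℚ, 0 < q → ∀ (k m : ℤ) (s t : ℚ),
    Tendsto (fun n : ℕ => ∫ x, (L (B x) k s n (n * q) - L (B x) m t n (n * q)) ∂μ) atTop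
      (𝓝 (c / 2 * (((m : ℝ) - k) * Real.sqrt q + ((t : ℝ) - s) / Real.sqrt q)))

/-- localisation of the geodesics (block E): the point `(n, v)` is on a geodesic from `(k, s)` to
`(n', n' q)` -/
def LocV {X : Type} [MeasurableSpace X] (μ : Measure X) (B : X → Env) : Prop :=
  ∀ q₁ q q₂ : ℚ, 0 < q₁ → q₁ < q → q < q₂ → ∀ (k : ℤ) (s : ℚ) (δ : ℝ), 0 < δ →
    ∃ N : ℕ, ∀ n : ℕ, N ≤ n → ∃ n₁ : ℕ, ∀ n' : ℕ, n₁ ≤ n' →
      μ {x | ¬ ∃ v : ℝ, n * q₁ ≤ v ∧ v ≤ n * q₂ ∧ k ≤ n ∧ s ≤ v ∧ v ≤ n' * q ∧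
        L (B x) k s n' (n' * q) = L (B x) k s n v + L (B x) n v n' (n' * q)} ≤ ENNReal.ofReal δ

/-! ### Deterministic statements -/

/-- FSA: sandwich for the increments.

PROOF.  `P = (m', s)`, `Q = (m, s')`.  (1) `v` is good for `P`: `L b m s' n v + L b n v n' e' ≤ L b m s' n' e'` (SpkStmt), so
`L P - L Q ≤ L b m' s n v - L b m s' n v`, and this is `≤ L b m' s n e₁ - L b m s' n e₁` by QuaStmt with `n = n'`, ends `e₁ ≤ v`.
(2) `v` is good for `Q`: `L b m' s n v + L b n v n' e' ≤ L b m' s n' e'` (SpkStmt), so `L P - L Q ≥ L b m' s n v - L b m s' n v`, and this is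
`≥ L b m' s n e₂ - L b m s' n e₂` by QuaStmt, ends `v ≤ e₂`. -/
def FsaStmt : Prop := SpkStmt → QuaStmt → ∀ b : Env, Cts b → ∀ (m m' n n' : ℤ) (s s' v e₁ e₂ e' : ℝ),
  m ≤ m' → m' ≤ n → n ≤ n' → s ≤ s' →
  (s' ≤ e₁ → e₁ ≤ v → v ≤ e' → L b m' s n' e' = L b m' s n v + L b n v n' e' →
    Dx b m' s m s' n' e' ≤ Dx b m' s m s' n e₁) ∧
  (s' ≤ v → v ≤ e₂ → v ≤ e' → L b m s' n' e' = L b m s' n v + L b n v n' e' →
    Dx b m' s m s' n e₂ ≤ Dx b m' s m s' n' e')

/-- FMO: modulus of continuity.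

PROOF.  Let `U k u = L b k u n e`.  First: for the start `(m, s)`, `-R ≤ s ≤ R`, there is `w` with
`R ≤ w ≤ e` and `U m s = L b m s M w + U M w`.  Take an optimal path from `(m, s)` to `(n, e)` (ExiStmt) and the point
`u = τ (M - 1)` on level `M` (PntStmt with `k = M`; `s ≤ u ≤ e` by PabStmt): `U m s = L b m s M u + U M u`.  If `R ≤ u` take `w = u`.
If `u < R ≤ v`: QuaStmt (start level `m`, end level `M`, starts `-R ≤ s`, ends `u ≤ v`) gives
`L b m (-R) M v + L b m s M u ≤ L b m (-R) M u + L b m s M v`; add `U M v + U M u`: the left side becomes `U m (-R) + U m s`, the right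
side is `(L b m (-R) M u + U M u) + (L b m s M v + U M v) ≤ U m (-R) + (L b m s M v + U M v)` (SpkStmt); so
`U m s ≤ L b m s M v + U M v`, and equality by SpkStmt: `w = v`.
Then for `s ≤ t ≤ R ≤ w`: `U m t ≥ L b m t M w + U M w` (SpkStmt), so `U m s - U m t ≤ L b m s M w - L b m t M w`, and QuaStmt (starts
`s ≤ t`, ends `t ≤ w`, levels `m`, `M`): `L b m s M w + L b m t M t ≤ L b m s M t + L b m t M w`, with `L b m t M t = 0` (OneStmt). -/
def FmoStmt : Prop := PabStmt → OneStmt → ExiStmt → SpkStmt → PntStmt → QuaStmt →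
  ∀ b : Env, Cts b → ∀ (m M n : ℤ) (R v e : ℝ), m ≤ M → M ≤ n → 0 ≤ R → R ≤ v → v ≤ e →
  L b m (-R) n e = L b m (-R) M v + L b M v n e →
  ∀ s t : ℝ, -R ≤ s → s ≤ t → t ≤ R → L b m s n e - L b m t n e ≤ L b m s M t

/-- the inequalities at rational points; `Φ q m t` is the limit of `L 0 0 n (n q) - L m t n (n q)` -/
def RatI (b : Env) (Φ : ℚ → ℤ → ℚ → ℝ) : Prop :=
  (∀ q : ℚ, 0 < q → ∀ (m : ℤ) (s t : ℚ), s ≤ t → b m t - b m s ≤ Φ q m t - Φ q m s) ∧
  (∀ q q' : ℚ, 0 < q → q < q' → ∀ (m : ℤ) (s t : ℚ), s ≤ t →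
    Φ q' m t - Φ q' m s ≤ Φ q m t - Φ q m s) ∧
  (∀ q q' : ℚ, 0 < q → q < q' → ∀ (m : ℤ) (s : ℚ),
    Φ q (m + 1) s - Φ q m s ≤ Φ q' (m + 1) s - Φ q' m s)

/-- the modulus of continuity at rational points -/
def RatM (b : Env) (Φ : ℚ → ℤ → ℚ → ℝ) : Prop :=
  ∀ q : ℚ, 0 < q → ∀ (m : ℤ) (R : ℕ), ∃ M : ℤ, m ≤ M ∧
    ∀ s t : ℚ, -(R : ℝ) ≤ s → s ≤ t → (t : ℝ) ≤ R → Φ q m t - Φ q m s ≤ L b m s M t

/-- FIE: the inequalities pass to the limit.

PROOF.  For every `j` with `φ j` large (`φ j ≥ m + 1`, `φ j * q ≥ t`, ...; `φ` is strictly increasing, so `φ j → ∞`), at the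
end `(n, e)`, `n = φ j`, `e = n q ≤ e' = n q'`:
(1) `b m t - b m s ≤ L b m s n e - L b m t n e` (IncStmt (1)), and the right side is
`(L b 0 0 n e - L b m t n e) - (L b 0 0 n e - L b m s n e)`, which tends to `Φ q m t - Φ q m s` (`ge_of_tendsto`).
(2) QuaStmt (`m = m'`, `n = n'`): `L b m s n e' - L b m t n e' ≤ L b m s n e - L b m t n e`.
(3) QuaStmt (`m' = m + 1`, `s = s'`, `n = n'`): `L b (m + 1) s n e' + L b m s n e ≤ L b (m + 1) s n e + L b m s n e'`, so
`L b m s n e - L b (m + 1) s n e ≤ L b m s n e' - L b (m + 1) s n e'`; the left side tends to `Φ q (m + 1) s - Φ q m s`.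
(`le_of_tendsto_of_tendsto` with `Filter.Eventually`.) -/
def FieStmt : Prop := IncStmt → QuaStmt → ∀ (b : Env) (Φ : ℚ → ℤ → ℚ → ℝ) (φ : ℕ → ℕ), Cts b →
  StrictMono φ →
  (∀ q : ℚ, 0 < q → ∀ (m : ℤ) (t : ℚ), Tendsto (fun j : ℕ =>
    L b 0 0 (φ j) (φ j * q) - L b m t (φ j) (φ j * q)) atTop (𝓝 (Φ q m t))) → RatI b Φ

/-- FEX: continuous extension of a function on the rationals.

PROOF.  For rational `s ≤ t` in `[-R, R]`: `b m t - b m s ≤ f t - f s ≤ L b m s M t`; both bounds are small if `t - s` is small,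
uniformly: for `ω > 0` there is `η > 0` such that `|b r x - b r y| ≤ ω` for `m ≤ r ≤ M`, `x, y ∈ [-R, R]`, `|x - y| ≤ η` (uniform
continuity on a compact interval, finitely many levels), then `|f t - f s| ≤ (M - m + 1) ω` by ModStmt (3).  So `f`
is uniformly continuous on bounded sets of rationals and extends to a continuous function (for example: for
real `t` the limit of `f` along `comap cast (𝓝 t)` exists, because the image filter is Cauchy; Mathlib:
`IsDenseInducing.continuous_extend`, `Rat.isDenseEmbedding_coe_real`, complete space). -/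
def FexStmt : Prop := ModStmt → ∀ (b : Env) (m : ℤ) (f : ℚ → ℝ), Cts b →
  (∀ s t : ℚ, s ≤ t → b m t - b m s ≤ f t - f s) →
  (∀ R : ℕ, ∃ M : ℤ, m ≤ M ∧ ∀ s t : ℚ, -(R : ℝ) ≤ s → s ≤ t → (t : ℝ) ≤ R →
    f t - f s ≤ L b m s M t) →
  ∃ ψ : ℝ → ℝ, Continuous ψ ∧ ∀ t : ℚ, ψ t = f t

/-- FBE: the Busemann functions of one environment.

PROOF.  For `q > 0` and `m` let `ψ q m` be the extension of `Φ q m` (FexStmt, `choose`), and
`β q x y = ψ q y.1 y.2 - ψ q x.1 x.2` (and `0` for `q ≤ 0`).  Con: difference of continuous functions.  Mon: additivity is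
clear; the other three inequalities hold at rational times (`RatI`) and pass to real times by continuity:
for `s ≤ t` real choose rational `s_j ≤ t_j` with `s_j → s`, `t_j → t` (for `s < t` this is clear, for `s = t` take
`s_j = t_j`), both sides are continuous. -/
def FbeStmt : Prop := FexStmt → ModStmt → ∀ (b : Env) (Φ : ℚ → ℤ → ℚ → ℝ), Cts b → RatI b Φ →
  RatM b Φ → ∃ β : ℚ → ℤ × ℝ → ℤ × ℝ → ℝ, Con β ∧ Mon b β ∧
    ∀ q : ℚ, 0 < q → ∀ (m n : ℤ) (s t : ℚ), β q (m, s) (n, t) = Φ q n t - Φ q m s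

/-! ### Probability -/

/-- FGA: the gap between two directions is small in the mean.

PROOF.  Nonnegative: QuaStmt with `n = n'`, ends `n q₁ ≤ n q₂` (for `n ≥ m'`, `n q₁ ≥ s'`).  The expectation of the gap tends to
`(c/2) ((m' - m) (√q₂ - √q₁) + (s' - s) (1/√q₁ - 1/√q₂))` (difference of two limits of `MeanV`: for `Dx .. m' s m s'` the limit is
`(c/2) ((m - m') √q + (s' - s)/√q)`), and this tends to `0` as `q₁ ↑ q`, `q₂ ↓ q` (continuity of `√` and `1/√` at `q > 0`; rationals are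
dense).  Choose `q₁ < q < q₂` with the limit `< ε`; then the expectation is `≤ ε` for all large `n`. -/
def FgaStmt : Prop := QuaStmt → ∀ (X : Type) [MeasurableSpace X] (μ : Measure X) (B : X → Env) (c : ℝ),
  Sp μ B → MeanV μ B c → ∀ (q : ℚ) (m m' : ℤ) (s s' : ℚ) (ε : ℝ), 0 < q → m ≤ m' → s ≤ s' → 0 < ε →
  ∃ q₁ q₂ : ℚ, 0 < q₁ ∧ q₁ < q ∧ q < q₂ ∧ ∀ᶠ n : ℕ in atTop,
    (∀ x, 0 ≤ Dx (B x) m' s m s' n (n * q₁) - Dx (B x) m' s m s' n (n * q₂)) ∧
    Integrable (fun x => Dx (B x) m' s m s' n (n * q₁) - Dx (B x) m' s m s' n (n * q₂)) μ ∧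
    ∫ x, (Dx (B x) m' s m s' n (n * q₁) - Dx (B x) m' s m s' n (n * q₂)) ∂μ ≤ ε

/-- FCA: the increments are Cauchy in measure.

PROOF.  Given `ε, δ > 0`.  FgaStmt with `ε δ / 4` gives `q₁, q₂`.  `LocV` for the starts `(m', s)` and `(m, s')` with `δ/4` each: choose one
`n₀` larger than both `N`, with the properties of FgaStmt, `m' ≤ n₀` and `s' ≤ n₀ q₁`; then `n₁ ≥ n₀` for both.  For every `n' ≥ n₁` outside of
a set of measure `≤ δ/2` both good points exist and FsaStmt (1) and (2) give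
`Dx n₀ (n₀ q₂) ≤ Dx n' (n' q) ≤ Dx n₀ (n₀ q₁)`.  So for `n', n'' ≥ n₁`, outside of the union of the two exceptional sets and of
`{ε < gap n₀}` (measure `≤ δ/4` by Markov's inequality, `mul_meas_ge_le_integral_of_nonneg`), `|Dx n' - Dx n''| ≤ ε`.  The total measure of
the exceptional sets of `n'` is `≤ δ/2`; together `≤ δ/2 + δ/2 + δ/4`: so use `δ/8` instead of `δ/4` for `LocV`. -/
def FcaStmt : Prop := SpkStmt → QuaStmt → FsaStmt → FgaStmt → ∀ (X : Type) [MeasurableSpace X]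
  (μ : Measure X) (B : X → Env) (c : ℝ), Sp μ B → MeanV μ B c → LocV μ B →
  ∀ (q : ℚ) (m m' : ℤ) (s s' : ℚ), 0 < q → m ≤ m' → s ≤ s' → ∀ ε δ : ℝ, 0 < ε → 0 < δ →
  ∃ N : ℕ, ∀ n n' : ℕ, N ≤ n → N ≤ n' →
    μ {x | ε < |Dx (B x) m' s m s' n (n * q) - Dx (B x) m' s m s' n' (n' * q)|} ≤ ENNReal.ofReal δ

/-- FCP: completeness for convergence in measure.

PROOF.  Choose `n_0 < n_1 < ...` with `μ {2^(-k) < |f n - f n'|} ≤ 2^(-k)` for all `n, n' ≥ n_k`.  By the lemma of Borel and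
Cantelli (`measure_limsup_atTop_eq_zero`, `∑ 2^(-k) < ∞`) for almost all `x` eventually `|f (n_(k+1)) x - f (n_k) x| ≤ 2^(-k)`, so
`f (n_k) x` is a Cauchy sequence and converges to some `g x`; `g` can be chosen measurable
(`measurable_limit_of_tendsto_metrizable_ae` or `exists_measurable_limit...`, or `limUnder` on the measurable set of
convergence).  Convergence in measure of the subsequence: `tendstoInMeasure_of_tendsto_ae` (finite measure).  For the full
sequence: `{ε ≤ |f n - g|} ⊆ {ε/2 ≤ |f n - f (n_k)|} ∪ {ε/2 ≤ |f (n_k) - g|}`, first `k` then `n` large. -/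
def FcpStmt : Prop := ∀ (X : Type) [MeasurableSpace X] (μ : Measure X) [IsFiniteMeasure μ]
  (f : ℕ → X → ℝ), (∀ n, Measurable (f n)) →
  (∀ ε δ : ℝ, 0 < ε → 0 < δ → ∃ N : ℕ, ∀ n n' : ℕ, N ≤ n → N ≤ n' →
    μ {x | ε < |f n x - f n' x|} ≤ ENNReal.ofReal δ) →
  ∃ g : X → ℝ, Measurable g ∧ TendstoInMeasure μ f atTop g

/-- FPH: the limits in measure at rational points.

PROOF.  Let `Z = (m₀, t₀) = (min 0 m, max 0 t)`: it is to the lower right of `(0, 0)` and of `(m, t)`.  FcaStmt: `Dx (B x) 0 0 m₀ t₀ n (n q)` and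
`Dx (B x) m t m₀ t₀ n (n q)` are Cauchy in measure, so their difference `L 0 0 - L m t` is, too
(`{ε < |a + b|} ⊆ {ε/2 < |a|} ∪ {ε/2 < |b|}`).  Measurable by MeaStmt; FcpStmt. -/
def FphStmt : Prop := MeaStmt → FcpStmt → ∀ (X : Type) [MeasurableSpace X] (μ : Measure X)
  (B : X → Env), Sp μ B →
  (∀ (q : ℚ) (m m' : ℤ) (s s' : ℚ), 0 < q → m ≤ m' → s ≤ s' → ∀ ε δ : ℝ, 0 < ε → 0 < δ →
    ∃ N : ℕ, ∀ n n' : ℕ, N ≤ n → N ≤ n' →
      μ {x | ε < |Dx (B x) m' s m s' n (n * q) - Dx (B x) m' s m s' n' (n' * q)|} ≤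
        ENNReal.ofReal δ) →
  ∃ Φ : ℚ → ℤ → ℚ → X → ℝ, ∀ q : ℚ, 0 < q → ∀ (m : ℤ) (t : ℚ), Measurable (Φ q m t) ∧
    TendstoInMeasure μ (fun (n : ℕ) x => L (B x) 0 0 n (n * q) - L (B x) m t n (n * q)) atTop
      (Φ q m t)

/-- FDI: a common subsequence.

PROOF.  Enumerate the index set as `i 0, i 1, ...` (an encoding; or `exists_surjective_nat` if it is nonempty; the
empty case is trivial).  Choose `φ 0 < φ 1 < ...` such that `μ {2^(-j) ≤ |f i (φ j) - g i|} ≤ 2^(-j)` for the first `j + 1` indices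
(`tendstoInMeasure_iff_dist`, finitely many conditions, each holds for all large `n`).  For a fixed index Borel and Cantelli
(`measure_limsup_atTop_eq_zero`) gives for almost all `x` that eventually `|f i (φ j) x - g i x| < 2^(-j)`; countably many indices. -/
def FdiStmt : Prop := ∀ (X : Type) [MeasurableSpace X] (μ : Measure X) (ι : Type) [Countable ι]
  (f : ι → ℕ → X → ℝ) (g : ι → X → ℝ), (∀ i, TendstoInMeasure μ (f i) atTop (g i)) →
  ∃ φ : ℕ → ℕ, StrictMono φ ∧ ∀ᵐ x ∂μ, ∀ i, Tendsto (fun j => f i (φ j) x) atTop (𝓝 (g i x))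

/-- FMD: the modulus of the limit, almost surely.

PROOF.  Countably many `(q, m, R)`: fix one.  Let `δ > 0`.  `LocV` with `q₁ = q / 2`, `q₂ = 2 q`, `k = m`, `s = -R`, `δ`: choose a natural
number `M ≥ N` with `M ≥ m` and `M q₁ ≥ R`, then `n₁`.  For `n' ≥ n₁` let `S n'` be the exceptional set (measure `≤ ofReal δ`).
FatStmt for the sequence `S (φ j)`: the set of the `x` with `x ∈ S (φ j)` for all large `j` has measure `≤ ofReal δ`.
For every other `x` in the almost sure set of convergence there are infinitely many `j` (with `φ j ≥ M`) with a good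
point `v`, `R ≤ M q₁ ≤ v ≤ φ j * q`, so FmoStmt gives `L m s (φ j) .. - L m t (φ j) .. ≤ L (B x) m s M t` for all real
`-R ≤ s ≤ t ≤ R`.  Limit along these `j`: `Φ q m t x - Φ q m s x ≤ L (B x) m s M t` for all rational `s ≤ t` in `[-R, R]`
(`le_of_tendsto_of_frequently`).  So the set of the `x` for which no `M` exists has measure `≤ ofReal δ` for every `δ > 0`. -/
def FmdStmt : Prop := PabStmt → OneStmt → ExiStmt → SpkStmt → PntStmt → QuaStmt → FmoStmt →
  FatStmt → ∀ (X : Type) [MeasurableSpace X] (μ : Measure X) (B : X → Env)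
  (Φ : ℚ → ℤ → ℚ → X → ℝ) (φ : ℕ → ℕ), Sp μ B → LocV μ B → StrictMono φ →
  (∀ᵐ x ∂μ, ∀ q : ℚ, 0 < q → ∀ (m : ℤ) (t : ℚ), Tendsto (fun j : ℕ =>
    L (B x) 0 0 (φ j) (φ j * q) - L (B x) m t (φ j) (φ j * q)) atTop (𝓝 (Φ q m t x))) →
  ∀ᵐ x ∂μ, RatM (B x) (fun q m t => Φ q m t x)

/-- FIM: convergence in measure at real points.

PROOF.  Write `u n (m, s) = L (B x) m s n (n q)`, `β y z = β q y z x`.  For `y = (m, s)` and rational `s₁ < s < s₂`, `n q ≥ s₂`, `n ≥ m`:
IncStmt (1): `0 ≤ [u n (m, s₁) - u n (m, s)] - (b s - b s₁) ≤ [u n (m, s₁) - u n (m, s₂)] - (b s₂ - b s₁) =: A n`, and in the same way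
(`Mon`, parts 1, 2) `0 ≤ β (m, s₁) (m, s) - (b s - b s₁) ≤ β (m, s₁) (m, s₂) - (b s₂ - b s₁) =: A` (`b = B x m`).  So
`|u n (m, s₁) - u n (m, s) - β (m, s₁) (m, s)| ≤ |A n - A| + 2 A`.  `A` is a.e. measurable (limit in measure of measurable functions at
rational points, `TendstoInMeasure.aemeasurable`, MeaStmt), and tends to `0` almost surely as `s₁ ↑ s`, `s₂ ↓ s` along
rational sequences (`Con`, `Cts`): so for given `ε, η` there are `s₁, s₂` with `μ {ε/8 < A} ≤ η` (`tendstoInMeasure_of_tendsto_ae`), and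
for this choice `μ {ε/8 < |A n - A|} ≤ η` for all large `n` (hypothesis at the rational points).  The same for `z = (m', t)` with
`t₁ < t < t₂`.  Finally `u n y - u n z - β y z = - [u n (m, s₁) - u n y - β (m, s₁) y] + [u n (m, s₁) - u n (m', t₁) - β (m, s₁) (m', t₁)]`
`+ [u n (m', t₁) - u n z - β (m', t₁) z]` (additivity of `β`). -/
def FimStmt : Prop := IncStmt → MeaStmt → ∀ (X : Type) [MeasurableSpace X] (μ : Measure X)
  (B : X → Env) (β : ℚ → ℤ × ℝ → ℤ × ℝ → X → ℝ), Sp μ B →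
  (∀ᵐ x ∂μ, Con (fun q y z => β q y z x) ∧ Mon (B x) (fun q y z => β q y z x)) →
  (∀ q : ℚ, 0 < q → ∀ (m m' : ℤ) (s t : ℚ), TendstoInMeasure μ
    (fun (n : ℕ) x => L (B x) m s n (n * q) - L (B x) m' t n (n * q)) atTop
      (β q (m, s) (m', t))) → InM μ B β

/-- FAS: EXISTENCE OF THE BUSEMANN FUNCTIONS.

PROOF.  FcaStmt and FphStmt: `Φ`.  FdiStmt with the index set of the triples `(q, m, t)`, `q > 0`: `φ`.  FieStmt, FmdStmt: almost
surely `RatI` and `RatM`.  FbeStmt: for almost all `x` there is `β`; choose one (`Classical.choose`, `0` for the other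
`x`).  So almost surely `Con`, `Mon` and `β q (m, s) (m', t) x = Φ q m' t x - Φ q m s x` for rational points.  Convergence in measure at
rational points: `L m s - L m' t = (L 0 0 - L m' t) - (L 0 0 - L m s)` (difference of two sequences converging in measure), limit
`Φ q m' t - Φ q m s`, which is a.e. equal to `β q (m, s) (m', t)` (`TendstoInMeasure.congr_right`).  FimStmt. -/
def FasStmt : Prop := IncStmt → MeaStmt → ModStmt → SpkStmt → QuaStmt → PabStmt → OneStmt →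
  ExiStmt → PntStmt → FatStmt → FsaStmt → FmoStmt → FieStmt → FexStmt → FbeStmt → FgaStmt →
  FcaStmt → FcpStmt → FphStmt → FdiStmt → FmdStmt → FimStmt →
  ∀ (X : Type) [MeasurableSpace X] (μ : Measure X) (B : X → Env) (c : ℝ), Sp μ B → MeanV μ B c →
  LocV μ B → ∃ β : ℚ → ℤ × ℝ → ℤ × ℝ → X → ℝ, InM μ B β ∧
    ∀ᵐ x ∂μ, Con (fun q y z => β q y z x) ∧ Mon (B x) (fun q y z => β q y z x)

end

end Pool.Agent.BLP
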