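import Pool.Agent.BLP.Defs

/-!
# Squad BLP, block K: the canonical space, and the assembly

All statements are independent of each other; a statement may be used as a hypothesis
`(h : XxxStmt)` of another one.
-/

namespace Pool.Agent.BLP

open MeasureTheory ProbabilityTheory Filter Topology Finset
open scoped ENNReal

noncomputable section

/-- GUQ: the law of a centred Gaussian process with countable index set is determined by its
covariance.

PROOF: The maps are a.e. measurable (`IsGaussianProcess.aemeasurable`, `aemeasurable_pi_iff` for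
a countable index set), so both sides are probability measures on `T → ℝ` with the product sigma
algebra.  They agree if their images under all restrictions to finite sets `I` agree
(`MeasureTheory.IsProjectiveLimit.unique`, or a pi-system argument with cylinders,
`MeasureTheory.ext_of_generate_finite`).  For a finite set `I` the image is the law of the Gaussian
vector `(X t) t ∈ I` (`IsGaussianProcess.hasGaussianLaw`), with mean `0` and covariance
`∫ X s * X t`.  Two Gaussian measures on `I → ℝ` with the same mean and covariance agree: their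
characteristic functions agree (`Measure.ext_of_charFunDual`, `IsGaussian.charFunDual_eq`: the
function is `exp (i * mean (L) - variance (L) / 2)` for a linear form `L x = ∑ c t * x t`; mean and
variance of `∑ c t * X t` are `0` and `∑ s t, c s * c t * ∫ X s * X t`). -/
def GuqStmt : Prop :=
  ∀ (T : Type) [Countable T] (Ω Ω' : Type) [MeasurableSpace Ω] [MeasurableSpace Ω']
    (P : Measure Ω) (P' : Measure Ω') (X : T → Ω → ℝ) (Y : T → Ω' → ℝ),
    IsGaussianProcess X P → IsGaussianProcess Y P' →
    (∀ t, ∫ ω, X t ω ∂P = 0) → (∀ t, ∫ ω, Y t ω ∂P' = 0) →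
    (∀ s t, ∫ ω, X s ω * X t ω ∂P = ∫ ω, Y s ω * Y t ω ∂P') →
    P.map (fun ω t => X t ω) = P'.map (fun ω t => Y t ω)

/-- the canonical space: values at rational times -/
abbrev XX : Type := ℤ × ℚ → ℝ

/-- `x` extends to a continuous environment which is `0` at time `0` -/
def Nice (x : XX) : Prop := ∃ b : Env, Cts b ∧ (∀ r, b r 0 = 0) ∧ ∀ (r : ℤ) (q : ℚ), b r q = x (r, q)

open Classical in
/-- the canonical environment -/
def BX (x : XX) : Env := if h : Nice x then Classical.choose h else 0

/-- BXE: `BX x` is the continuous extension of `x`, if `x` is nice, and it is always continuous and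
`0` at time `0`.

PROOF: Two continuous functions which agree on the rationals agree (`Continuous.ext_on` with
`Rat.denseRange_cast` or `Rat.isDenseEmbedding_coe_real`).  The other statements from
`Classical.choose_spec`, or for the environment `0`. -/
def BxeStmt : Prop :=
  (∀ x : XX, Cts (BX x) ∧ ∀ r, BX x r 0 = 0) ∧
  (∀ (x : XX) (b : Env), Cts b → (∀ r, b r 0 = 0) → (∀ (r : ℤ) (q : ℚ), b r q = x (r, q)) →
    BX x = b) ∧
  (∀ x : XX, Nice x → ∀ (r : ℤ) (q : ℚ), BX x r q = x (r, q))

/-- NCM: measurability of the set of nice points and of the canonical environment.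

PROOF: `Nice x` holds iff for all `r`: `x (r, 0) = 0` and for all natural numbers `N, k` there is a
natural number `j` such that for all rational `s, t` in `[-N, N]` with `|s - t| < 1 / (j + 1)` we
have `|x (r, s) - x (r, t)| ≤ 1 / (k + 1)` (uniform continuity on bounded sets of the
rationals; if this holds, the function `x (r, ·)` extends to a continuous function on `ℝ`: for
example `UniformContinuousOn` on `[-N, N] ∩ ℚ` and `IsDenseEmbedding.extend` /
`IsDenseInducing.continuous_extend` with Cauchy filters, or define the extension at `t` as the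
limit of `x (r, ⌊2^n t⌋ / 2^n)`; conversely a continuous function is uniformly continuous on
`[-N, N]`).  This is a countable combination of measurable conditions
(`MeasurableSet.iInter`, `MeasurableSet.iUnion`, evaluation maps are measurable).  For nice `x`,
`BX x r t` is the limit of `x (r, ⌊2^n t⌋ / 2^n)`, so `x ↦ BX x r t` is the limit of the measurable
functions `x ↦ if Nice x then x (r, ⌊2^n t⌋ / 2^n) else 0` (`measurable_of_tendsto_metrizable`). -/
def NcmStmt : Prop :=
  MeasurableSet {x : XX | Nice x} ∧ ∀ (r : ℤ) (t : ℝ), Measurable fun x : XX => BX x r t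

/-- ZER: the environment at rational times is nice, almost surely.

PROOF: `∫ B r 0 * B r 0 = 0` (covariance with `s = t = 0`), `B r 0` is square integrable (Gaussian:
`IsGaussianProcess.hasGaussianLaw_eval`, `HasGaussianLaw.memLp_two`), so `B r 0 = 0` almost surely
(`integral_eq_zero_iff_of_nonneg`), for all `r` simultaneously (`ae_all_iff`); with continuity this
gives `Nice` with `b = B ω` (witness), and `BX (f ω) = B ω` (BXE). -/
def ZerStmt : Prop := BxeStmt →
  ∀ (Ω : Type) [MeasurableSpace Ω] (P : Measure Ω) (B : Ω → Env), IsBM P B →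
    ∀ᵐ ω ∂P, Cts (B ω) ∧ (∀ r, B ω r 0 = 0) ∧ Nice (fun i : ℤ × ℚ => B ω i.1 i.2) ∧
      BX (fun i : ℤ × ℚ => B ω i.1 i.2) = B ω

/-- MPR: the transformations preserve the law.  Here `μ` is the law of the values at rational
times, on the space `XX`.

PROOF: The map `f ω i = B ω i.1 i.2` is a.e. measurable (countable index set).  For
each of the three maps `T : XX → XX` (measurable: each coordinate is a measurable function) the
image of `μ` under `T` is the law of the process `ω ↦ T (f ω)`, which is again a centred Gaussian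
process (`IsGaussianProcess.of_isGaussianProcess`: each coordinate is a linear combination of
finitely many coordinates of `B`, `comp_right` for the levels, `smul` for the scaling) with the same
covariance: for the translation `cov (B r (s + a) - B r a, B r' (t + a) - B r' a)`
is `0` for `r ≠ r'` and for `r = r'`, with `c (s, t) = (|s| + |t| - |s - t|) / 2`:
`c (s + a, t + a) - c (s + a, a) - c (a, t + a) + c (a, a) = c (s, t)`; for the scaling
`c (l s, l t) / l = c (s, t)`.  Then GUQ. -/
def MprStmt : Prop := GuqStmt →
  ∀ (Ω : Type) [MeasurableSpace Ω] (P : Measure Ω) (B : Ω → Env), IsBM P B →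
    AEMeasurable (fun ω (i : ℤ × ℚ) => B ω i.1 i.2) P ∧
    (∀ a : ℚ, MeasurePreserving (fun (x : XX) (i : ℤ × ℚ) => x (i.1, i.2 + a) - x (i.1, a))
      (P.map fun ω (i : ℤ × ℚ) => B ω i.1 i.2) (P.map fun ω (i : ℤ × ℚ) => B ω i.1 i.2)) ∧
    (∀ k : ℤ, MeasurePreserving (fun (x : XX) (i : ℤ × ℚ) => x (i.1 + k, i.2))
      (P.map fun ω (i : ℤ × ℚ) => B ω i.1 i.2) (P.map fun ω (i : ℤ × ℚ) => B ω i.1 i.2)) ∧
    (∀ l : ℚ, 0 < l → MeasurePreserving
      (fun (x : XX) (i : ℤ × ℚ) => x (i.1, l * i.2) / Real.sqrt l)
      (P.map fun ω (i : ℤ × ℚ) => B ω i.1 i.2) (P.map fun ω (i : ℤ × ℚ) => B ω i.1 i.2))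

/-- BXT: the canonical environment of the transformed points.

PROOF: The right side is continuous, `0` at time `0`, and its values at rational times are those of
the transformed point (BXE for nice `x`); so BXE (uniqueness). -/
def BxtStmt : Prop := BxeStmt → ∀ x : XX, Nice x →
  (∀ a : ℚ, BX (fun i : ℤ × ℚ => x (i.1, i.2 + a) - x (i.1, a)) = shT a (BX x)) ∧
  (∀ k : ℤ, BX (fun i : ℤ × ℚ => x (i.1 + k, i.2)) = shL k (BX x)) ∧
  (∀ l : ℚ, 0 < l → BX (fun i : ℤ × ℚ => x (i.1, l * i.2) / Real.sqrt l) = scl l (BX x))

/-- LIN: law of the increments and independence, for `B` on the original space.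

PROOF: (1) `B r t - B r s` is a Gaussian variable (`hasGaussianLaw_sub`) with mean `0` and variance
`c (t, t) - 2 c (s, t) + c (s, s) = |t - s| = t - s`; the law of a real Gaussian variable is
`gaussianReal mean variance` (`HasGaussianLaw.map_eq_gaussianReal` or
`IsGaussian.eq_gaussianReal`).
(2) `IsGaussianProcess.iIndepFun_of_covariance_eq_zero` with index type `ℤ` and `S r = ℚ`: the
covariance `cov[X, Y; P] = ∫ X Y - ∫ X ∫ Y` is `0` for different levels (the process
`fun p : (r : ℤ) × ℚ => B p.1 p.2` is Gaussian by `comp_right`).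
(3) `IsGaussianProcess.indepFun_of_covariance_eq_zero` for the two processes
`B r t - B r s`, `t ≤ s`, and `B r t - B r s`, `t ≥ s`: jointly Gaussian by
`IsGaussianProcess.of_isGaussianProcess`, and uncorrelated: for `u ≤ s ≤ t`, with
`c (s, t) = (|s| + |t| - |s - t|) / 2`: `c (u, t) - c (u, s) - c (s, t) + c (s, s)
= (- |u - t| + |u - s| + |s - t|) / 2 = 0`. -/
def LinStmt : Prop :=
  ∀ (Ω : Type) [MeasurableSpace Ω] (P : Measure Ω) (B : Ω → Env), IsBM P B →
    (∀ r (s t : ℝ), s ≤ t →
      P.map (fun ω => B ω r t - B ω r s) = gaussianReal 0 (t - s).toNNReal) ∧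
    iIndepFun (fun (r : ℤ) (ω : Ω) => fun q : ℚ => B ω r q) P ∧
    ∀ r (s : ℝ), IndepFun (fun ω => fun t : {t : ℝ // t ≤ s} => B ω r t - B ω r s)
      (fun ω => fun t : {t : ℝ // s ≤ t} => B ω r t - B ω r s) P

/-- SPX: the canonical space satisfies all requirements.

PROOF: `μ = P.map f`, `f ω i = B ω i.1 i.2` (a.e. measurable by MPR).  `prob`: image of a probability
measure (`IsGaussianProcess.isProbabilityMeasure`).  `cts`, `zero`: BXE.  `mea`: NCM.  For `tr`, `lv`,
`sc`: the maps of MPR, and BXT for nice `x`; almost every `x` is nice: `{x | Nice x}` is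
measurable (NCM), so `ae_map_iff` reduces this to ZER.  `law`: the function
`x ↦ BX x r t - BX x r s` is measurable, its image of `P.map f` is the image of `P` under the
composition with `f` (`AEMeasurable.map_map_of_aemeasurable`), and `BX (f ω) = B ω` almost surely
(ZER, `Measure.map_congr`), then LIN.  `ind`, `inc`: independence under `P.map f` of measurable
functions `g i` is independence under `P` of `g i ∘ f` (`iIndepFun` and `IndepFun` in terms of
measurable sets: `indepFun_iff_measure_inter_preimage_eq_mul`,
`iIndepFun_iff_measure_inter_preimage_eq_mul`, `Measure.map_apply_of_aemeasurable`; the functions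
of `x` with values in products are measurable by `measurable_pi_iff` and NCM); `g i ∘ f` agrees
almost surely with the corresponding function of `B ω` (`IndepFun.congr`, and directly with the
measures of the sets for `iIndepFun`); then LIN. -/
def SpxStmt : Prop := BxeStmt → NcmStmt → ZerStmt → GuqStmt → MprStmt → BxtStmt → LinStmt →
  ∀ (Ω : Type) [MeasurableSpace Ω] (P : Measure Ω) (B : Ω → Env), IsBM P B →
    Sp (P.map fun ω (i : ℤ × ℚ) => B ω i.1 i.2) BX

/-- LIM: the one-sided limits exist.

PROOF: Fix `m, t`, and put `g q = β q (m, 0) (m, t)` for rational `q > 0`.  If `0 ≤ t`, `g` is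
nonincreasing in `q` and `≥ b m t - b m 0`.  So `g q` tends to the infimum of `g` over rational
`0 < q < θ` as `q` increases to `θ` (for `ε > 0` take `q₀` with `g q₀ <` infimum `+ ε`; all `q` in
`(q₀, θ)` are good; the set `{q | q₀ < q}` is in `comap cast (𝓝[<] θ)` since `Ioi q₀` is a
neighbourhood of `θ`), and to the supremum of `g` over rational `q > θ` as `q` decreases to
`θ` (bounded above by `g q₁` for any rational `0 < q₁ < θ`).  If `t < 0` use
`β q (m, 0) (m, t) = - β q (m, t) (m, 0)` (additivity; `β q x x = 0`), and the same argument for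
`β q (m, t) (m, 0)`. -/
def LimStmt : Prop := ∀ (b : Env) (β : ℚ → ℤ × ℝ → ℤ × ℝ → ℝ), Mon b β → ∀ θ : ℝ, 0 < θ →
  ∃ hl hr : ℤ → ℝ → ℝ, LimL β θ hl ∧ LimR β θ hr

/-- the main theorem on the space `Sp` -/
def MspStmt : Prop := ∀ (X : Type) [MeasurableSpace X] (μ : Measure X) (B : X → Env), Sp μ B →
  ∃ β : ℚ → ℤ × ℝ → ℤ × ℝ → X → ℝ, InM μ B β ∧ ∀ᵐ x ∂μ,
    Con (fun q y z => β q y z x) ∧ Mon (B x) (fun q y z => β q y z x) ∧
      NoV (B x) (fun q y z => β q y z x)

/-- the deterministic conclusion (step A of the valley proof; block V) -/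
def GooStmt : Prop := ∀ (b : Env) (β : ℚ → ℤ × ℝ → ℤ × ℝ → ℝ), Cts b → Mon b β → NoV b β → Good b β

/-- FIN: assembly.

PROOF: Let `f ω i = B ω i.1 i.2`, `μ = P.map f`, `Sp μ BX` (SPX conclusion), `β` from the main
theorem on `XX`, and take `fun q x y ω => β q x y (f ω)` on `Ω`.  Almost surely `BX (f ω) = B ω`
(ZER conclusion).  Convergence in measure: for `ε > 0`
`P {ω | ε ≤ edist (F n ω) (β (f ω))}` with `F n ω = L (B ω) .. - L (B ω) ..` equals
`P (f ⁻¹' S n)`, `S n = {x | ε ≤ edist (L (BX x) .. - L (BX x) ..) (β x)}`, up to a null set, and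
`P (f ⁻¹' S) ≤ (P.map f) S` for every set `S` (`MeasureTheory.Measure.le_map_apply`).  Almost sure
statements: `ae_of_ae_map`.  Then LIM and GOO for every good `ω`. -/
def FinStmt : Prop :=
  (∀ (Ω : Type) [MeasurableSpace Ω] (P : Measure Ω) (B : Ω → Env), IsBM P B →
    AEMeasurable (fun ω (i : ℤ × ℚ) => B ω i.1 i.2) P ∧
    Sp (P.map fun ω (i : ℤ × ℚ) => B ω i.1 i.2) BX ∧
    ∀ᵐ ω ∂P, Cts (B ω) ∧ BX (fun i : ℤ × ℚ => B ω i.1 i.2) = B ω) →
  MspStmt → LimStmt → GooStmt → MainStmt

end

end Pool.Agent.BLP
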