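import Pool.Agent.BLP.StmtsA

/-!
# Squad BLP, block V (author helper37): valleys, the box inequality, the count, the end of the proof

MP_2ae58c_pr.  Rows V_XXX, namespace `Pool.Agent.BLP.V`.  All rows are independent (column `uses`:
statements which may be used as hypotheses; ALL statements of `StmtsA.lean`, deterministic facts about
`L`, may be used as hypotheses everywhere: BelStmt QuaStmt CovStmt CtlStmt SpkStmt StpStmt ..).

PLAN.  A geodesic `τ` of direction `θ` which is neither a Busemann geodesic of `θ-` nor of `θ+` gives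
a valley (row GEO) in every window of directions around `θ`.  Deterministic box inequality (SRT, REC,
CHN, BOX): `(number of sites with a valley) * d² ≤ W² / 2` with one four-point difference `W`.
Law of large numbers for `W` at four points (LLW): the probability of a valley between the
directions `α < α'` is `≤ w(α, α')² / (2 d²) = O((α' - α)²)` (VLI), and the sum over the grid
windows tends to `0` (NOV).
-/

namespace Pool.Agent.BLP.V

open MeasureTheory ProbabilityTheory Filter Topology Pool.Agent.BLP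
open scoped ENNReal

noncomputable section

/-! ### 1. The box inequality (deterministic) -/

/-- The properties of the values `U e k t = L((k, t), (n, e))`, `k ≤ n`, `t ≤ e` (end `e` at level
`n`) which are used in the box inequality. -/
structure Lpp (n : ℕ) (U : ℝ → ℕ → ℝ → ℝ) : Prop where
  qua : ∀ (e e' : ℝ) (k : ℕ) (s t : ℝ), k ≤ n → e ≤ e' → s ≤ t → t ≤ e →
    U e' k s - U e k s ≤ U e' k t - U e k t
  ver : ∀ (e e' : ℝ) (k : ℕ) (t : ℝ), k < n → e ≤ e' → t ≤ e →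
    U e' (k + 1) t - U e (k + 1) t ≤ U e' k t - U e k t
  dp : ∃ b : ℕ → ℝ → ℝ, ∀ (e : ℝ) (k : ℕ) (t : ℝ), k < n → t ≤ e →
    (∀ u, t ≤ u → u ≤ e → b k u - b k t + U e (k + 1) u ≤ U e k t) ∧
    ∃ u, t ≤ u ∧ u ≤ e ∧ U e k t = b k u - b k t + U e (k + 1) u

/-- ROW LPP (easy, 40 lines; uses BelStmt QuaStmt). The last-passage values have these properties
(`b k` of the structure is `b (k : ℤ)`).

Proof. `qua`: QUA with `m = m' = k`, `n = n'`, starts `s ≤ t`, ends `e ≤ e'`. `ver`: QUA with `m = k`,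
`m' = k + 1`, `n = n'`, `s = s' = t`. `dp`: BEL (first two parts). -/
def LppStmt : Prop := ∀ (b : Env) (n : ℕ), Cts b → Lpp n fun e k t => L b k t n e

/-- ROW SRT (easy, 60 lines; no hypotheses). Sorting.

Proof. Let `w k t = U e₂ k t - U e₁ k t`, `w' k t = U e₄ k t - U e₃ k t`, `b` from `dp`, and let
`u ∈ [t, e₂]` be a maximiser for `e₂` at `(k, t)` (`dp`). First part: if `e₁ < t` then `e₁ < u`. If
`t ≤ e₁` and `c ≤ w k t`: either `e₁ < u`, or `u ≤ e₁` and `U e₁ k t ≥ b u - b t + U e₁ (k+1) u`, so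
`w k t ≤ w (k+1) u`. Second part: `w' (k+1) u ≤ w' k t`. Let `v ∈ [t, e₃]` be a maximiser for `e₃`. If
`u ≤ v`: `U e₄ k t ≥ b v - b t + U e₄ (k+1) v = U e₃ k t + w' (k+1) v ≥ U e₃ k t + w' (k+1) u` (`qua` for
`e₃ ≤ e₄`, `u ≤ v ≤ e₃`). If `v < u`: `b v + U e₂ (k+1) v ≤ b u + U e₂ (k+1) u` and, by `qua` for `e₂ ≤ e₃`,
`(U e₃ - U e₂) (k+1) v ≤ (U e₃ - U e₂) (k+1) u`, so `U e₃ k t = b v - b t + U e₃ (k+1) v ≤ b u - b t +
U e₃ (k+1) u`, and `U e₄ k t ≥ b u - b t + U e₄ (k+1) u ≥ U e₃ k t + w' (k+1) u`. -/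
def SrtStmt : Prop := ∀ (n : ℕ) (U : ℝ → ℕ → ℝ → ℝ), Lpp n U → ∀ (e₁ e₂ e₃ e₄ : ℝ), e₁ ≤ e₂ →
  e₂ ≤ e₃ → e₃ ≤ e₄ → ∀ (k : ℕ) (t c d : ℝ), k < n → t ≤ e₂ →
  (e₁ < t ∨ c ≤ U e₂ k t - U e₁ k t) → U e₄ k t - U e₃ k t ≤ d →
  ∃ u, u ≤ e₂ ∧ (e₁ < u ∨ c ≤ U e₂ (k + 1) u - U e₁ (k + 1) u) ∧
    U e₄ (k + 1) u - U e₃ (k + 1) u ≤ d

/-- the sites: level `i q`, window `[j p, (j + 1) p]`, for `z = (i, j)`; `t z` is a point of the
window -/
def InW (p : ℝ) (S : Finset (ℕ × ℕ)) (t : ℕ × ℕ → ℝ) : Prop :=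
  ∀ z ∈ S, z.2 * p ≤ t z ∧ t z ≤ (z.2 + 1) * p

/-- ROW REC (medium, 150 lines; uses SrtStmt). Disjoint rectangles.

Proof. Put `f k t = U e₂ k t - U e₁ k t`, `g k t = U e₄ k t - U e₃ k t`: nondecreasing in `t ≤ e₁` (`qua`;
`g` even in `t ≤ e₃`), nonincreasing in `k` (`ver`; iterate). For `k ≤ M` let
`P k = {(c, d) | ∃ t, t ≤ e₂ ∧ (e₁ < t ∨ c ≤ f k t) ∧ g k t ≤ d}`; by SRT `P k ⊆ P (k + 1)` (`k < n`).
For a site `z = (i, j)` put `m = i q`, `m' = (i + 1) q`, `t₀ = t₀ z`, `t₁ = t₁ z` and let `Q z` be the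
rectangle `Ioo (f m t₀) (f m' t₁) ×ˢ Ioo (g m' t₁) (g m t₀)`. (1) `Q z ⊆ P m'` (take `t = t₁`). (2) `Q z` is
disjoint from `P m`: if `t ≤ e₂`, `g m t ≤ d < g m t₀` then `t < t₀` (monotone; `t, t₀ ≤ e₃`), so `t < t₀ ≤
e₁` and `c ≤ f m t ≤ f m t₀ < c`, a contradiction. (3) different sites have disjoint rectangles: if
`i < i'` then `Q z ⊆ P m' ⊆ P (i' q)`, (2) for `z'`; if `i = i'`, `j < j'`: `t₁ ≤ t₀'` so
`f m' t₁ ≤ f m t₁ ≤ f m t₀'`: the first coordinates are separated. (4) `Q z ⊆ Icc (f M 0) (f 0 R) ×ˢ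
Icc (g M 0) (g 0 R)`: `f M 0 ≤ f m 0 ≤ f m t₀`, `f m' t₁ ≤ f 0 t₁ ≤ f 0 R` (`0 ≤ t₀, t₁ ≤ R`), same for
`g`. The sum of the areas (`volume` on `ℝ × ℝ`, `Measure.volume_eq_prod`, `Real.volume_Ioo`,
`measure_biUnion_finset`) is at most the area of the large rectangle. (`q = 0` is excluded.) -/
def RecStmt : Prop := ∀ (n : ℕ) (U : ℝ → ℕ → ℝ → ℝ), Lpp n U → ∀ (e₁ e₂ e₃ e₄ : ℝ), e₁ ≤ e₂ →
  e₂ ≤ e₃ → e₃ ≤ e₄ → ∀ (q M : ℕ) (p R : ℝ) (S : Finset (ℕ × ℕ)) (t₀ t₁ : ℕ × ℕ → ℝ), 0 < q → M ≤ n →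
  0 ≤ p → R ≤ e₁ → 0 ≤ R → (∀ z ∈ S, (z.1 + 1) * q ≤ M ∧ (z.2 + 1) * p ≤ R) → InW p S t₀ → InW p S t₁ →
  ∑ z ∈ S, max ((U e₂ ((z.1 + 1) * q) (t₁ z) - U e₁ ((z.1 + 1) * q) (t₁ z)) -
      (U e₂ (z.1 * q) (t₀ z) - U e₁ (z.1 * q) (t₀ z))) 0 *
    max ((U e₄ (z.1 * q) (t₀ z) - U e₃ (z.1 * q) (t₀ z)) -
      (U e₄ ((z.1 + 1) * q) (t₁ z) - U e₃ ((z.1 + 1) * q) (t₁ z))) 0 ≤
  ((U e₂ 0 R - U e₁ 0 R) - (U e₂ M 0 - U e₁ M 0)) * ((U e₄ 0 R - U e₃ 0 R) - (U e₄ M 0 - U e₃ M 0))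

/-- ROW CHN (easy, 40 lines; no hypotheses). A finite set of real numbers as an increasing chain.

Proof. `Finset.orderEmbOfFin` of `insert a (insert b E)` (or `Finset.sort`), extended to `ℕ`; `y 0` is
the minimum, `y K` the maximum. (`E` may be empty, `a = b` allowed: then `K = 0`.) -/
def ChnStmt : Prop := ∀ (a b : ℝ) (E : Finset ℝ), a ≤ b → (∀ x ∈ E, a ≤ x ∧ x ≤ b) →
  ∃ (K : ℕ) (y : ℕ → ℝ), y 0 = a ∧ y K = b ∧ (∀ i j, i < j → j ≤ K → y i < y j) ∧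
    ∀ x ∈ E, ∃ i ≤ K, y i = x

/-- ROW BOX (medium, 150 lines; uses RecStmt ChnStmt). BOX INEQUALITY.

Proof. CHN for `a = e`, `b = e'` and the finite set of all `x₁ z, x₂ z, x₃ z`, `z ∈ S`. Let
`w i k t = U (y (i+1)) k t - U (y i) k t`, `i < K`. For `z ∈ S` let `i₁ ≤ i₂ ≤ i₃` be the indices of
`x₁ z, x₂ z, x₃ z` (strict monotonicity of `y`), `k₀ = z.1 q`, `k₁ = (z.1 + 1) q`,
`a i z = max (w i k₁ t₁ - w i k₀ t₀) 0`, `b i z = max (w i k₀ t₀ - w i k₁ t₁) 0`. Telescoping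
(`Finset.sum_Ico_...`): `∑_(i₁ ≤ i < i₂) (w i k₁ t₁ - w i k₀ t₀) = D^(x₁) - D^(x₂) > d`,
`∑_(i₂ ≤ j < i₃) (w j k₀ t₀ - w j k₁ t₁) = D^(x₃) - D^(x₂) > d`. So `d² ≤ ∑_(i < j < K) a i z * b j z` (the
pairs `i < i₂ ≤ j` are some of the pairs, all terms are `≥ 0`). Sum over `z`, exchange the sums, REC for
`y i ≤ y (i+1) ≤ y j ≤ y (j+1)`: `card S * d² ≤ ∑_(i < j < K) ℓ i * ℓ j ≤ (∑_(i < K) ℓ i)² / 2`,
`ℓ i = w i 0 R - w i M 0 ≥ 0` (`qua`, `ver`), and `∑ ℓ i` telescopes to the four-point difference. -/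
def BoxStmt : Prop := ∀ (n : ℕ) (U : ℝ → ℕ → ℝ → ℝ), Lpp n U → ∀ (e e' : ℝ), e ≤ e' →
  ∀ (q M : ℕ) (p R d : ℝ) (S : Finset (ℕ × ℕ)) (t₀ t₁ x₁ x₂ x₃ : ℕ × ℕ → ℝ), 0 < q → M ≤ n →
  0 ≤ p → R ≤ e → 0 ≤ R → 0 ≤ d → (∀ z ∈ S, (z.1 + 1) * q ≤ M ∧ (z.2 + 1) * p ≤ R) →
  InW p S t₀ → InW p S t₁ → (∀ z ∈ S, e ≤ x₁ z ∧ x₁ z ≤ x₂ z ∧ x₂ z ≤ x₃ z ∧ x₃ z ≤ e') →
  (∀ z ∈ S, U (x₂ z) (z.1 * q) (t₀ z) - U (x₂ z) ((z.1 + 1) * q) (t₁ z) + d <
      U (x₁ z) (z.1 * q) (t₀ z) - U (x₁ z) ((z.1 + 1) * q) (t₁ z) ∧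
    U (x₂ z) (z.1 * q) (t₀ z) - U (x₂ z) ((z.1 + 1) * q) (t₁ z) + d <
      U (x₃ z) (z.1 * q) (t₀ z) - U (x₃ z) ((z.1 + 1) * q) (t₁ z)) →
  S.card * d ^ 2 ≤ ((U e' 0 R - U e 0 R) - (U e' M 0 - U e M 0)) ^ 2 / 2

/-- the four-point difference for `s × s` sites (level `i q`, time `j p`, `i, j < s`), end level
`n`, directions between `α` and `α'` -/
def Wd (b : Env) (α α' : ℝ) (p q s n : ℕ) : ℝ :=
  Dm b n ((n - s * q) * α) (n * α' + s * p) 0 (s * p) -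
    Dm b n ((n - s * q) * α) (n * α' + s * p) ((s * q : ℕ) : ℤ) 0

/-- ROW CNT (medium, 80 lines; uses LppStmt BoxStmt CovStmt). The number of sites with a
valley.

Proof. BOX for `U e k t = L b k t n e`, `e = (n - s q) α`, `e' = n α' + s p`, `M = s q`, `R = s p`, `S` = the
filtered set. For a site `z = (i, j)` in it take `t₀', t₁', x₁', x₂', x₃'` from `Val` for the environment
`b' = shT (j p) (shL (i q) b)` with `n' = n - i q` levels, and put `t₀ z = t₀' + j p`, `t₁ z = t₁' + j p`,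
`x z = x' + j p`. Covariance: `L b' k t n' x' = L b (k + i q) (t + j p) n (x' + j p)` (`n' + i q = n`). And
`(n - s q) α ≤ (n - i q) α + j p ≤ x₁ z`, `x₃ z ≤ (n - i q) α' + j p ≤ n α' + s p`. -/
def CntStmt : Prop := ∀ (b : Env) (α α' d : ℝ) (p q s n : ℕ), Cts b → 0 < α → α ≤ α' → 0 ≤ d →
  1 ≤ p → 1 ≤ q → s * q ≤ n → (s * p : ℝ) ≤ (n - s * q) * α →
  ∀ S : Finset (ℕ × ℕ), (∀ z ∈ S, z.1 < s ∧ z.2 < s ∧
    Val α α' p d q (n - z.1 * q) (shT (z.2 * p : ℕ) (shL (z.1 * q : ℕ) b))) →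
  S.card * d ^ 2 ≤ Wd b α α' p q s n ^ 2 / 2

/-! ### 2. The probability of a valley -/

/-- Measurability of the last-passage values (row of block M of helper22; here only as a hypothesis
of MSV and CLO; not a row of this file). -/
def MeaStmt : Prop := ∀ (X : Type) [MeasurableSpace X] (μ : Measure X) (B : X → Env), Sp μ B →
  ∀ (m n : ℤ) (s t : ℝ), m ≤ n → s ≤ t → Measurable fun x => L (B x) m s n t

/-- ROW MSV (medium, 100 lines; uses MeaStmt CtlStmt). The event of a valley is measurable.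

Proof. By continuity of `L b m · n ·` (jointly on `s ≤ t`) the strict inequalities are an open
condition on `(t₀, t₁, x₁, x₂, x₃)`; they force `x₁ < x₂ < x₃` (`d ≥ 0`), so all five numbers can be
replaced by rational numbers in `[0, p]`, respectively in `[α n, α' n]` (move them slightly to the
inside; `p ≥ 1`, `p ≤ α n`, so that `t ≤ x` always). So the event is a countable union of measurable sets
`{x | L .. - L .. + d < L .. - L ..}`. -/
def MsvStmt : Prop := ∀ (X : Type) [MeasurableSpace X] (μ : Measure X) (B : X → Env), Sp μ B →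
  ∀ (α α' d : ℝ) (p q n : ℕ), 0 < α → α < α' → 0 ≤ d → 1 ≤ p → 1 ≤ q → q ≤ n → (p : ℝ) ≤ α * n →
  MeasurableSet {x | Val α α' p d q n (B x)}

/-- ROW STV (easy, 40 lines; no hypotheses). Stationarity.

Proof. `Sp.lv`: `B (T x) = shL m (B x)` a.e., `Sp.tr`: `B (T' y) = shT k (B y)` a.e., so
`B (T' (T x)) = shT k (shL m (B x))` a.e. (`MeasurePreserving.quasiMeasurePreserving.ae`), and `T' ∘ T` is
measure preserving: `μ {x | E (B (T' (T x)))} = μ {x | E (B x)}` (`MeasurePreserving.measure_preimage` for the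
measurable set). -/
def StvStmt : Prop := ∀ (X : Type) [MeasurableSpace X] (μ : Measure X) (B : X → Env), Sp μ B →
  ∀ (E : Env → Prop) (k m : ℤ), MeasurableSet {x | E (B x)} →
    μ {x | E (shT k (shL m (B x)))} = μ {x | E (B x)}

/-- ROW AVG (medium, 100 lines; uses CntStmt MsvStmt StvStmt MeaStmt). The expected number of sites.

Proof. Let `N x` be the number of the sites `(i, j)`, `i, j < s`, with a valley for `B x` (as in CNT).
`∫ N = ∑_(i, j < s) μ {Val .. (n - i q) (shT (j p) (shL (i q) (B x)))} = s ∑_(i < s) μ {Val .. (n - i q) (B x)}`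
by STV and MSV (the conditions of MSV for `n - i q ≥ n - s q + q`; the measurability of the shifted
events: they agree a.e. with the preimages, so the indicators are a.e. measurable). By CNT
`N ≤ Wd² / (2 d²)`, and `N ≤ s²`. On `{|Wd| ≤ v s}` (`|Wd|` need not be measurable, but it is: or use
the outer measure of the complement): `N ≤ v² s² / (2 d²)`, so
`∫ N ≤ v² s² / (2 d²) + s² μ {v s < |Wd|}`. Divide by `s²`. -/
def AvgStmt : Prop := ∀ (X : Type) [MeasurableSpace X] (μ : Measure X) (B : X → Env), Sp μ B →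
  ∀ (α α' d v : ℝ) (p q s n : ℕ), 0 < α → α < α' → 0 < d → 0 ≤ v → 1 ≤ p → 1 ≤ q → 1 ≤ s →
  s * q + q ≤ n → (s * p + p : ℝ) ≤ (n - s * q) * α →
  (∑ i ∈ Finset.range s, μ.real {x | Val α α' p d q (n - i * q) (B x)}) / s ≤
    v ^ 2 / (2 * d ^ 2) + μ.real {x | v * s < |Wd (B x) α α' p q s n|}

/-- the limit of `Wd / s` for `n = K s` -/
def wK (c α α' : ℝ) (p q K : ℕ) : ℝ :=
  c * (Real.sqrt (K * (K * α')) - Real.sqrt (K * ((K - q) * α - p)) -
    Real.sqrt ((K - q) * (K * α' + p)) + Real.sqrt ((K - q) * ((K - q) * α)))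

/-- ROW LLW (medium, 120 lines; uses CovStmt). Law of large numbers for the four-point
difference.

Proof. Four terms, with `n = K s`, `e = (K s - s q) α`, `e' = K s α' + s p`: `L b 0 (s p) n e =
L (shT (s p) b) 0 0 n (e - s p)` and `L b (s q) 0 n e = L (shL (s q) b) 0 0 (n - s q) e`. By `Sp.tr`, `Sp.lv`
and the last part of `LLNc` (for `n = K s` and for `n = (K - q) s`, both tend to infinity with `s`; choose
`A` large) each term divided by `s` is, outside of an event whose probability tends to `0`, within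
`η` of `c √(K (e/s - p))`, respectively `c √((K - q) e/s)` (`√(n e) / s = √((n/s) (e/s))`). -/
def LlwStmt : Prop := ∀ (X : Type) [MeasurableSpace X] (μ : Measure X) (B : X → Env) (c : ℝ),
  Sp μ B → LLNc μ B c → ∀ (α α' η : ℝ) (p q K : ℕ), 0 < α → α < α' → 0 < η → 1 ≤ p → 1 ≤ q → q < K →
  (p : ℝ) < (K - q) * α →
  Tendsto (fun s : ℕ => μ {x | η * s < |Wd (B x) α α' p q s (K * s) - s * wK c α α' p q K|})
    atTop (𝓝 0)

/-- the limit of `wK` for `K → ∞` -/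
def wI (c α α' : ℝ) (p q : ℕ) : ℝ :=
  c / 2 * (q * (Real.sqrt α' - Real.sqrt α) + p * (1 / Real.sqrt α - 1 / Real.sqrt α'))

/-- ROW NUM (easy, 80 lines; no hypotheses). The limit.

Proof. With `x = 1 / K`: `K √α' - √((K - q)(K α' + p)) = K (√α' - √((1 - q x)(α' + p x)))` tends to
`- (d/dx) √((1 - q x)(α' + p x))` at `0`, `= (q α' - p) / (2 √α')`. And
`√((K - q)² α) - √(K ((K - q) α - p)) = K (√((1 - q x)² α) - √((1 - q x) α - p x))` tends to the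
derivative at `0`, `- q √α + (q α + p) / (2 √α) = (- q α + p) / (2 √α)`. (Or
`√A - √B = (A - B) / (√A + √B)`.) -/
def NumStmt : Prop := ∀ (c α α' : ℝ) (p q : ℕ), 0 < α → 0 < α' →
  Tendsto (fun K : ℕ => wK c α α' p q K) atTop (𝓝 (wI c α α' p q))

/-- ROW VLI (medium, 80 lines; uses AvgStmt LlwStmt NumStmt). THE PROBABILITY OF A VALLEY.

Proof. Let `δ > 0`, `n₀` be given. Choose `K` large (NUM): `|wK - wI| < η`, then `s` large, `n = K s`
(so `(K - q) s ≥ n₀`), `v = |wI| + 2 η` in AVG: `μ {v s < |Wd|} ≤ μ {η s < |Wd - s wK|}` is small (LLW).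
So the average over `i < s` of the probabilities is `≤ (|wI| + 2 η)² / (2 d²) + small ≤ wI² / (2 d²) +
δ`, and some term of the average, `n - i q ≥ (K - q) s ≥ n₀`, is not larger. (`s q + q ≤ K s`,
`s p + p ≤ (K s - s q) α` for `K` large and `s ≥ 1`.) -/
def VliStmt : Prop := ∀ (X : Type) [MeasurableSpace X] (μ : Measure X) (B : X → Env) (c : ℝ),
  Sp μ B → LLNc μ B c → ∀ (α α' d δ : ℝ) (p q : ℕ), 0 < α → α < α' → 0 < d → 0 < δ → 1 ≤ p → 1 ≤ q →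
  ∃ᶠ n : ℕ in atTop, μ.real {x | Val α α' p d q n (B x)} ≤ wI c α α' p q ^ 2 / (2 * d ^ 2) + δ

/-- ROW WIB (easy, 40 lines; no hypotheses). The bound is quadratic in `α' - α`.

Proof. For `α ≥ 1 / A`: `√α' - √α = (α' - α) / (√α + √α') ≤ √A (α' - α)`,
`1/√α - 1/√α' = (√α' - √α) / √(α α') ≤ A √A (α' - α)`. -/
def WibStmt : Prop := ∀ (c : ℝ) (p q A : ℕ), 0 < c → 1 ≤ A → ∃ C : ℝ, 0 < C ∧ ∀ α α' : ℝ,
  1 / (A : ℝ) ≤ α → α ≤ α' → wI c α α' p q ^ 2 ≤ C * (α' - α) ^ 2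

/-! ### 3. The end of the proof -/

/-- ROW CLO (medium, 150 lines; uses MeaStmt IncStmt). Closeness to the Busemann functions, uniformly on
the window, in probability.

Proof. Fix `j` (finitely many levels), the direction `ρ`, put `e = n ρ ≥ k + p` for large `n`,
`F n t = L b j k n e - L b j t n e`, `F t = β ρ (j, k) (j, t)`, `t ∈ [k, k + p]`. `F n - b j` is nondecreasing
(INC: `b j t - b j s ≤ L b j s n e - L b j t n e` for `s ≤ t ≤ e`) and so is `F - b j` (Mon); `F` and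
`b j` are continuous a.s. (Con, Cts). Let `η > 0`; for a finite net `k = t₀ < ... < t_l = k + p` of mesh
`1/l` (rational) the probability that `b j` or `F` oscillates by more than `η` on some net interval tends
to `0` for `l → ∞`: the sets `A_l = {for all rational s, t in the window, |s - t| ≤ 1/l → |F s - F t| ≤ η and
|b s - b t| ≤ η}` increase to a set of full measure (uniform continuity on the compact window), and they
are null measurable because `β ρ y z` is a.e. measurable (limit in measure of measurable functions: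
`TendstoInMeasure.exists_seq_tendsto_ae`, `aemeasurable_of_tendsto_metrizable_ae`; MEA); by continuity the property extends to real `s, t`. At the net points `|F n - F| ≤ η` with probability tending to `1` (InM, finitely many points). On this
event, for `t ∈ [t_i, t_(i+1)]`: `F n t - b t ≤ F n t_(i+1) - b t_(i+1) ≤ F t_(i+1) + η - b t_(i+1) ≤ F t - b t +
3 η`, and similarly from below. `β ρ (j, s) (j, t) = F t - F s` by additivity (Mon). Take `η = d / 8`. -/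
def CloStmt : Prop := ∀ (X : Type) [MeasurableSpace X] (μ : Measure X) (B : X → Env), Sp μ B →
  ∀ β : ℚ → ℤ × ℝ → ℤ × ℝ → X → ℝ, InM μ B β →
  (∀ᵐ x ∂μ, Con (fun q y z => β q y z x) ∧ Mon (B x) (fun q y z => β q y z x)) →
  ∀ (m k : ℤ) (p q : ℕ) (ρ d : ℚ), 0 < ρ → 0 < d →
  Tendsto (fun n : ℕ => μ {x | ¬ Clo (B x) (fun q y z => β q y z x) m k p q ρ d n}) atTop (𝓝 0)

/-- ROW NOV (medium, 120 lines; uses VliStmt WibStmt CloStmt StvStmt MsvStmt). ALMOST SURELY THERE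
ARE NO VALLEYS.

Proof. Countably many parameters (`ae_all_iff`); fix `m k p q A G₀ d`. For `G ≥ 1` and `i` with `G ≤ A i`,
`i + 4 ≤ A G` let `Z G i` be the set of the `x` for which NOT (`∃ᶠ n`, ...). For `x ∈ Z G i` for all large
`n` one of the three events `Val`, `¬ Clo`, `¬ Clo` occurs, so `μ (Z G i) ≤ liminf_n (μ Val_n + μ ¬Clo_n +
μ ¬Clo_n')` (`Z ⊆ ⋃_N ⋂_(n ≥ N) ..`, continuity from below of the outer measure: `Monotone.measure_iUnion`,
no measurability needed), `≤ wI² / (2 d²) + δ` for every `δ > 0` by VLI (with STV and MSV: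
`μ {Val .. (n - m).toNat (shT k (shL m (B x)))} = μ {Val .. (n - m).toNat (B x)}`; frequently in `n - m`) and
CLO (`(i + 1) / G > 0`). By WIB `wI² ≤ C (4 / G)²`, there are at most `A G` values of `i`, so (`δ = 1 / G²`)
`μ (⋃_i Z G i) ≤ A G (16 C / (2 d² G²) + 1 / G²) → 0` for `G → ∞`. The exceptional set is contained in
`⋃_i Z G i` for every `G ≥ G₀`. -/
def NovStmt : Prop := ∀ (X : Type) [MeasurableSpace X] (μ : Measure X) (B : X → Env) (c : ℝ),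
  Sp μ B → LLNc μ B c → ∀ β : ℚ → ℤ × ℝ → ℤ × ℝ → X → ℝ, InM μ B β →
  (∀ᵐ x ∂μ, Con (fun q y z => β q y z x) ∧ Mon (B x) (fun q y z => β q y z x)) →
  ∀ᵐ x ∂μ, NoV (B x) (fun q y z => β q y z x)

/-- ROW STR (easy, 60 lines; uses BelStmt EnaStmt). A strict step.

Proof. `L b m₀ (τ (m₀ - 1)) n e ≥ En b τ m₀ (r - 1) + L b r (τ (r - 1)) n e` (iterate the Bellman
inequality `b k u - b k t + L b (k+1) u n e ≤ L b k t n e` along `τ`), `L b r (τ (r-1)) n e ≥ b r s -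
b r (τ (r-1)) + L b (r+1) s n e ≥ b r (τ r) - b r (τ (r-1)) + L b (r+1) (τ r) n e + a` by hypothesis, and
`L b (r+1) (τ r) n e ≥ En b τ (r+1) (m₁ - 1) + L b m₁ (τ (m₁ - 1)) n e`. Add up. -/
def StrStmt : Prop := ∀ (b : Env), Cts b → ∀ (τ : ℤ → ℝ) (m₀ r m₁ n : ℤ) (s e a : ℝ),
  m₀ ≤ r → r < m₁ → m₁ ≤ n → (∀ k, m₀ ≤ k → k < m₁ → τ (k - 1) ≤ τ k) → τ (r - 1) ≤ s → s ≤ e →
  τ (m₁ - 1) ≤ e → b r (τ r) + L b (r + 1) (τ r) n e + a ≤ b r s + L b (r + 1) s n e →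
  En b τ m₀ (m₁ - 1) + a ≤ L b m₀ (τ (m₀ - 1)) n e - L b m₁ (τ (m₁ - 1)) n e

/-- ROW GEO (medium, 200 lines; uses StrStmt CovStmt EnaStmt). A BAD GEODESIC GIVES
VALLEYS.

Proof. Suppose neither `BGeo b hl m τ` nor `BGeo b hr m τ`. `Geo` gives `τ (k-1) ≤ τ k` for `k ≥ m`, so there
are `r ≥ m`, `s ≥ τ (r-1)` with `b r (τ r) - hl (r+1) (τ r) < b r s - hl (r+1) s`, and `r' ≥ m`, `s' ≥ τ (r'-1)`
with the same for `hr`. Let `d > 0` be rational, both gaps `> 8 d`. `m₀ = min r r'`, `m₁ = max r r' + 1`,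
`q = m₁ - m₀ ≥ 1`; choose `k`, `p ≥ 1` such that `[k, k + p]` contains `0`, `s`, `s'` and all `τ j`,
`m₀ - 1 ≤ j ≤ m₁`. By `LimL`, `LimR` there is `ε > 0` such that for rational `ρ ∈ (θ - ε, θ)`
`|β ρ (r+1, 0) (r+1, t) - hl (r+1) t| < d` for `t = s, τ r`, and for rational `ρ ∈ (θ, θ + ε)` the same with
`r'`, `hr`, `s'`, `τ r'`. Choose `A` and `G₀` large (`3 / G₀ < ε`, `G₀ θ ≥ 4`, `A θ ≥ 2`, `A ≥ θ + 4`); NoV
for `m₀ k p q A G₀ d` gives `G`; put `i = ⌈θ G⌉ - 2`, so `i + 1 < θ G < i + 3`, `G ≤ A i`, `i + 4 ≤ A G`. For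
frequently many `n`, in particular for some `n` as large as we want: no valley, and `Clo` for
`ρ₁ = (i+1)/G`, `ρ₃ = (i+3)/G`. We find a valley: `t₀ = τ (m₀-1) - k`, `t₁ = τ (m₁-1) - k`,
`x₁ = n ρ₁ - k`, `x₂ = τ n - k`, `x₃ = n ρ₃ - k`; for large `n` `x₁ ≤ x₂ ≤ x₃` (`Dir`, `ρ₁ < θ < ρ₃`) and
`(i/G) (n - m₀) ≤ x₁`, `x₃ ≤ ((i+4)/G) (n - m₀)`. By covariance `Dx` of the shifted environment at
`x - k` is `D^x = L b m₀ (τ (m₀-1)) n x - L b m₁ (τ (m₁-1)) n x`. `D^(τ n) = En b τ m₀ (m₁-1) =: E` (`Geo`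
for `(m₀, n)` and `(m₁, n)`). `D^(n ρ₁) ≥ E + 2 d` by STR with `e = n ρ₁`, `a = 2 d`: by `Clo` for the pairs
`(0, s)` and `(0, τ r)` on the level `r + 1 ∈ (m₀, m₀ + q]`, `L b (r+1) s n e - L b (r+1) (τ r) n e ≥
β ρ₁ (r+1, 0) (r+1, τ r) - β ρ₁ (r+1, 0) (r+1, s) - 2 d ≥ hl (r+1) (τ r) - hl (r+1) s - 4 d >
b r (τ r) - b r s + 4 d`. The same for `ρ₃` with `r'`. So both outer ends are deeper by `2 d > d`: valley of
depth `d`, a contradiction. -/
def GeoStmt : Prop := ∀ (b : Env) (β : ℚ → ℤ × ℝ → ℤ × ℝ → ℝ), Cts b → NoV b β → Good b β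

/-- ROW VVV (easy, 20 lines; uses NovStmt GeoStmt). The output of the block. -/
def VvvStmt : Prop := ∀ (X : Type) [MeasurableSpace X] (μ : Measure X) (B : X → Env) (c : ℝ),
  Sp μ B → LLNc μ B c → ∀ β : ℚ → ℤ × ℝ → ℤ × ℝ → X → ℝ, InM μ B β →
  (∀ᵐ x ∂μ, Con (fun q y z => β q y z x) ∧ Mon (B x) (fun q y z => β q y z x)) →
  ∀ᵐ x ∂μ, Good (B x) (fun q y z => β q y z x)

end

end Pool.Agent.BLP.V
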